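import Mathlib

/-!
# Blocks of a log-supermodular weight

`blk L μ row col a b` is the weight of the sets in `L` with row `a` and column `b`; if `row` and
`col` are lattice homomorphisms to `ℕ`, the block sums are log-supermodular.
-/

set_option autoImplicit false
set_option linter.unusedSectionVars false

namespace Pool.Agent.Helper99.W3

open Finset
open scoped FinsetFamily

variable {V : Type*} [Fintype V] [DecidableEq V]

/-- block sums -/
def blk (L : Finset (Finset V)) (μ : Finset V → ℕ) (row col : Finset V → ℕ) (a b : ℕ) : ℕ :=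
  ∑ D ∈ L.filter (fun D => row D = a ∧ col D = b), μ D

/-- `f` is a lattice homomorphism on `L` -/
def Hom (L : Finset (Finset V)) (f : Finset V → ℕ) : Prop :=
  ∀ A ∈ L, ∀ B ∈ L, f (A ∪ B) = max (f A) (f B) ∧ f (A ∩ B) = min (f A) (f B)

/-- **log-supermodularity of the block sums** -/
theorem blk_mul {L : Finset (Finset V)} {μ : Finset V → ℕ}
    (hL : ∀ A ∈ L, ∀ B ∈ L, A ∪ B ∈ L ∧ A ∩ B ∈ L)
    (hμ : ∀ A ∈ L, ∀ B ∈ L, μ A * μ B ≤ μ (A ∩ B) * μ (A ∪ B))
    {row col : Finset V → ℕ} (hrow : Hom L row) (hcol : Hom L col) (a b c d : ℕ) :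
    blk L μ row col a b * blk L μ row col c d ≤
      blk L μ row col (min a c) (min b d) * blk L μ row col (max a c) (max b d) := by
  classical
  set ν : Finset V → ℕ := fun D => if D ∈ L then μ D else 0 with hν
  have hblk : ∀ a b, blk L μ row col a b =
      ∑ D ∈ L.filter (fun D => row D = a ∧ col D = b), ν D := by
    intro a b
    refine Finset.sum_congr rfl fun D hD => ?_
    rw [hν]
    simp only [(Finset.mem_filter.1 hD).1, if_true]
  have key := Finset.four_functions_theorem (β := ℕ) (f₁ := ν) (f₂ := ν) (f₃ := ν) (f₄ := ν)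
    (Finset.univ : Finset V) (fun _ => Nat.zero_le _) (fun _ => Nat.zero_le _)
    (fun _ => Nat.zero_le _) (fun _ => Nat.zero_le _) (by
      intro A _ B _
      rw [hν]
      simp only
      by_cases hA : A ∈ L
      · by_cases hB : B ∈ L
        · rw [if_pos hA, if_pos hB, if_pos (hL A hA B hB).1, if_pos (hL A hA B hB).2]
          exact hμ A hA B hB
        · rw [if_neg hB, mul_zero]
          exact Nat.zero_le _
      · rw [if_neg hA, zero_mul]
        exact Nat.zero_le _)
    (𝒜 := L.filter (fun D => row D = a ∧ col D = b))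
    (ℬ := L.filter (fun D => row D = c ∧ col D = d)) (by simp) (by simp)
  rw [hblk, hblk, hblk, hblk]
  refine key.trans (Nat.mul_le_mul (Finset.sum_le_sum_of_subset ?_)
    (Finset.sum_le_sum_of_subset ?_))
  · intro C hC
    obtain ⟨A, hA, B, hB, rfl⟩ := Finset.mem_infs.1 hC
    rw [Finset.mem_filter] at hA hB ⊢
    refine ⟨(hL A hA.1 B hB.1).2, ?_, ?_⟩
    · rw [Finset.inf_eq_inter, (hrow A hA.1 B hB.1).2, hA.2.1, hB.2.1]
    · rw [Finset.inf_eq_inter, (hcol A hA.1 B hB.1).2, hA.2.2, hB.2.2]
  · intro C hC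
    obtain ⟨A, hA, B, hB, rfl⟩ := Finset.mem_sups.1 hC
    rw [Finset.mem_filter] at hA hB ⊢
    refine ⟨(hL A hA.1 B hB.1).1, ?_, ?_⟩
    · rw [Finset.sup_eq_union, (hrow A hA.1 B hB.1).1, hA.2.1, hB.2.1]
    · rw [Finset.sup_eq_union, (hcol A hA.1 B hB.1).1, hA.2.2, hB.2.2]

/-- the column sums of the blocks -/
theorem sum_row {L : Finset (Finset V)} {μ : Finset V → ℕ} {row col : Finset V → ℕ}
    (hcol : ∀ D ∈ L, col D ≤ 2) (a : ℕ) :
    blk L μ row col a 0 + blk L μ row col a 1 + blk L μ row col a 2 =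
      ∑ D ∈ L.filter (fun D => row D = a), μ D := by
  have h1 : (∑ b ∈ Finset.range 3, blk L μ row col a b) =
      ∑ D ∈ L.filter (fun D => row D = a), μ D := by
    rw [← Finset.sum_fiberwise_of_maps_to (s := L.filter (fun D => row D = a))
      (t := Finset.range 3) (g := col)]
    · refine Finset.sum_congr rfl fun b _ => ?_
      unfold blk
      rw [Finset.filter_filter]
    · intro D hD
      rw [Finset.mem_range]
      have := hcol D (Finset.mem_filter.1 hD).1
      omega
  rw [← h1]
  simp [Finset.sum_range_succ]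

theorem blk_swap (L : Finset (Finset V)) (μ : Finset V → ℕ) (row col : Finset V → ℕ) (a b : ℕ) :
    blk L μ row col a b = blk L μ col row b a := by
  unfold blk
  refine Finset.sum_congr ?_ fun _ _ => rfl
  ext D
  simp only [Finset.mem_filter]
  tauto

theorem sum_col {L : Finset (Finset V)} {μ : Finset V → ℕ} {row col : Finset V → ℕ}
    (hrow : ∀ D ∈ L, row D ≤ 2) (b : ℕ) :
    blk L μ row col 0 b + blk L μ row col 1 b + blk L μ row col 2 b =
      ∑ D ∈ L.filter (fun D => col D = b), μ D := by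
  rw [blk_swap L μ row col 0 b, blk_swap L μ row col 1 b, blk_swap L μ row col 2 b]
  exact sum_row hrow b

theorem sum_all {L : Finset (Finset V)} {μ : Finset V → ℕ} {row col : Finset V → ℕ}
    (hrow : ∀ D ∈ L, row D ≤ 2) (hcol : ∀ D ∈ L, col D ≤ 2) :
    (blk L μ row col 0 0 + blk L μ row col 0 1 + blk L μ row col 0 2) +
    (blk L μ row col 1 0 + blk L μ row col 1 1 + blk L μ row col 1 2) +
    (blk L μ row col 2 0 + blk L μ row col 2 1 + blk L μ row col 2 2) = ∑ D ∈ L, μ D := by
  rw [sum_row hcol, sum_row hcol, sum_row hcol]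
  have h1 : (∑ a ∈ Finset.range 3, ∑ D ∈ L.filter (fun D => row D = a), μ D) = ∑ D ∈ L, μ D := by
    refine Finset.sum_fiberwise_of_maps_to ?_ _
    intro D hD
    rw [Finset.mem_range]
    have := hrow D hD
    omega
  rw [← h1]
  simp [Finset.sum_range_succ]

theorem blk_zero {L : Finset (Finset V)} {μ : Finset V → ℕ} {row col : Finset V → ℕ} {a b : ℕ}
    (h : ∀ D ∈ L, ¬ (row D = a ∧ col D = b)) : blk L μ row col a b = 0 := by
  unfold blk
  rw [Finset.filter_false_of_mem h, Finset.sum_empty]

theorem blk_single {L : Finset (Finset V)} {μ : Finset V → ℕ} {row col : Finset V → ℕ} {a b : ℕ}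
    {X : Finset V} (hX : X ∈ L) (hXa : row X = a) (hXb : col X = b)
    (h : ∀ D ∈ L, row D = a → col D = b → D = X) : blk L μ row col a b = μ X := by
  unfold blk
  have h1 : L.filter (fun D => row D = a ∧ col D = b) = {X} := by
    ext D
    rw [Finset.mem_filter, Finset.mem_singleton]
    constructor
    · rintro ⟨h2, h3, h4⟩
      exact h D h2 h3 h4
    · rintro rfl
      exact ⟨hX, hXa, hXb⟩
  rw [h1, Finset.sum_singleton]

/-! ### chain statistics -/

/-- `0` if `y` is missing, `1` otherwise -/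
def fLow (y : V) (D : Finset V) : ℕ := if y ∈ D then 1 else 0

/-- `2` if `z` is present, `1` otherwise -/
def fUp (z : V) (D : Finset V) : ℕ := if z ∈ D then 2 else 1

/-- number of elements of the chain `y < z` which are present -/
def fPair (y z : V) (D : Finset V) : ℕ := if z ∈ D then 2 else if y ∈ D then 1 else 0

theorem hom_const (L : Finset (Finset V)) (k : ℕ) : Hom L (fun _ => k) := by
  intro A _ B _
  simp

theorem hom_low (L : Finset (Finset V)) (y : V) : Hom L (fLow y) := by
  intro A _ B _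
  unfold fLow
  by_cases h1 : y ∈ A <;> by_cases h2 : y ∈ B <;> simp [h1, h2]

theorem hom_up (L : Finset (Finset V)) (z : V) : Hom L (fUp z) := by
  intro A _ B _
  unfold fUp
  by_cases h1 : z ∈ A <;> by_cases h2 : z ∈ B <;> simp [h1, h2]

theorem hom_pair {L : Finset (Finset V)} {y z : V} (h : ∀ D ∈ L, z ∈ D → y ∈ D) :
    Hom L (fPair y z) := by
  intro A hA B hB
  unfold fPair
  have hA' := h A hA
  have hB' := h B hB
  by_cases h1 : z ∈ A <;> by_cases h2 : z ∈ B <;> by_cases h3 : y ∈ A <;> by_cases h4 : y ∈ B <;>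
    simp_all

theorem fLow_le (y : V) (D : Finset V) : fLow y D ≤ 2 := by
  unfold fLow
  split_ifs <;> omega

theorem fUp_le (z : V) (D : Finset V) : fUp z D ≤ 2 := by
  unfold fUp
  split_ifs <;> omega

theorem fPair_le (y z : V) (D : Finset V) : fPair y z D ≤ 2 := by
  unfold fPair
  split_ifs <;> omega

theorem fLow_eq_zero {y : V} {D : Finset V} : fLow y D = 0 ↔ y ∉ D := by
  unfold fLow
  split_ifs <;> simp_all

theorem fLow_eq_one {y : V} {D : Finset V} : fLow y D = 1 ↔ y ∈ D := by
  unfold fLow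
  split_ifs <;> simp_all

theorem fUp_eq_two {z : V} {D : Finset V} : fUp z D = 2 ↔ z ∈ D := by
  unfold fUp
  split_ifs <;> simp_all

theorem fUp_eq_one {z : V} {D : Finset V} : fUp z D = 1 ↔ z ∉ D := by
  unfold fUp
  split_ifs <;> simp_all

theorem fPair_eq_two {y z : V} {D : Finset V} : fPair y z D = 2 ↔ z ∈ D := by
  unfold fPair
  split_ifs <;> simp_all

theorem fPair_eq_one {y z : V} {D : Finset V} : fPair y z D = 1 ↔ z ∉ D ∧ y ∈ D := by
  unfold fPair
  split_ifs <;> simp_all

theorem fPair_eq_zero {y z : V} {D : Finset V} : fPair y z D = 0 ↔ z ∉ D ∧ y ∉ D := by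
  unfold fPair
  split_ifs <;> simp_all

end Pool.Agent.Helper99.W3
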