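import Mathlib
import Pool.Agent.BFT.Lists

/-!
# Reduction to posets which are not linear sums

`Indec r`: the poset is not a linear sum of two nonempty posets. A lower bound for the balance
constant of all such posets of width `w` holds for all posets of width `w`.
-/

set_option autoImplicit false

namespace Pool.Agent.Helper99.W3

open Finset Pool.Agent.Helper1.Balance Pool.Agent.Helper8.KS Pool.BFT
open scoped Classical

/-- the poset is not a linear sum of two nonempty posets -/
def Indec {n : ℕ} (r : Fin n → Fin n → Prop) : Prop :=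
  ∀ s : Finset (Fin n), s.Nonempty → s ≠ univ → ∃ x ∈ s, ∃ y, y ∉ s ∧ ¬ r x y

section lists

variable {V : Type*} [DecidableEq V] {r : V → V → Prop} {A B : Finset V}

/-- the number of lists with a property -/
noncomputable def cnt (L : Finset (List V)) (p : List V → Prop) : ℕ := (L.filter p).card

omit [DecidableEq V] in
theorem cnt_true (L : Finset (List V)) : cnt L (fun _ => True) = L.card := by
  unfold cnt
  congr 1
  ext l
  simp

omit [DecidableEq V] in
theorem cnt_le (L : Finset (List V)) (p : List V → Prop) : cnt L p ≤ L.card :=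
  Finset.card_le_card (Finset.filter_subset _ _)

omit [DecidableEq V] in
theorem cnt_congr {L : Finset (List V)} {p q : List V → Prop} (h : ∀ l ∈ L, p l ↔ q l) :
    cnt L p = cnt L q := by
  unfold cnt
  rw [Finset.filter_congr h]

omit [DecidableEq V] in
theorem filter_append (P : V → Prop) : ∀ l : List V,
    l.Pairwise (fun a b => ¬ (¬ P a ∧ P b)) →
    l.filter (fun a => P a) ++ l.filter (fun a => ¬ P a) = l := by
  intro l
  induction l with
  | nil => simp
  | cons a l ih =>
    intro h
    rw [List.pairwise_cons] at h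
    by_cases ha : P a
    · rw [List.filter_cons_of_pos (by simpa using ha), List.filter_cons_of_neg (by simpa using ha),
        List.cons_append, ih h.2]
    · have h1 : l.filter (fun a => P a) = [] := by
        rw [List.filter_eq_nil_iff]
        intro b hb
        have := h.1 b hb
        simp only [ha, not_false_eq_true, true_and] at this
        simpa using this
      have h2 : l.filter (fun a => ¬ P a) = l := by
        rw [List.filter_eq_self]
        intro b hb
        have := h.1 b hb
        simp only [ha, not_false_eq_true, true_and] at this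
        simpa using this
      rw [List.filter_cons_of_neg (by simpa using ha), List.filter_cons_of_pos (by simpa using ha),
        h1, h2, List.nil_append]

theorem append_mem (hd : Disjoint A B) (h : ∀ a ∈ A, ∀ b ∈ B, ¬ r b a) {l₁ l₂ : List V}
    (h₁ : l₁ ∈ LL r A) (h₂ : l₂ ∈ LL r B) : l₁ ++ l₂ ∈ LL r (A ∪ B) := by
  have hA : ∀ a, a ∈ l₁ → a ∈ A := fun a ha => (mem_of_LL h₁ a).1 ha
  have hB : ∀ a, a ∈ l₂ → a ∈ B := fun a ha => (mem_of_LL h₂ a).1 ha
  rw [mem_LL] at h₁ h₂ ⊢
  refine ⟨List.nodup_append.2 ⟨h₁.1, h₂.1, fun a ha b hb hab => ?_⟩, ?_, ?_⟩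
  · subst hab
    exact Finset.disjoint_left.1 hd (hA a ha) (hB a hb)
  · rw [List.toFinset_append, h₁.2.1, h₂.2.1]
  · exact List.pairwise_append.2 ⟨h₁.2.2, h₂.2.2, fun a ha b hb => h a (hA a ha) b (hB b hb)⟩

theorem split_mem' (hd : Disjoint A B) (h : ∀ a ∈ A, ∀ b ∈ B, r a b) {l : List V}
    (hl : l ∈ LL r (A ∪ B)) : ∃ l₁ ∈ LL r A, ∃ l₂ ∈ LL r B, l = l₁ ++ l₂ := by
  have hmem : ∀ a, a ∈ l ↔ a ∈ A ∪ B := fun a => mem_of_LL hl a
  rw [mem_LL] at hl
  have hp : l.Pairwise (fun a b => ¬ (¬ a ∈ A ∧ b ∈ A)) := by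
    have h1 : l.Pairwise (fun a b => a ∈ l ∧ b ∈ l ∧ ¬ r b a) := by
      have h2 : l.Pairwise (fun a b => a ∈ l ∧ b ∈ l) := by
        rw [List.pairwise_iff_forall_sublist]
        intro a b hab
        exact ⟨hab.subset (by simp), hab.subset (by simp)⟩
      exact (h2.and hl.2.2).imp fun {a b} h => ⟨h.1.1, h.1.2, h.2⟩
    refine h1.imp fun {a b} hab hcon => ?_
    have ha : a ∈ B := by
      have := (hmem a).1 hab.1
      rw [Finset.mem_union] at this
      exact this.resolve_left hcon.1
    exact hab.2.2 (h b hcon.2 a ha)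
  have key := filter_append (fun a => a ∈ A) l hp
  refine ⟨_, ?_, _, ?_, key.symm⟩
  · rw [mem_LL]
    refine ⟨hl.1.filter _, ?_, hl.2.2.sublist List.filter_sublist⟩
    ext a
    rw [List.mem_toFinset, List.mem_filter, hmem]
    simp only [decide_eq_true_eq]
    constructor
    · exact fun h => h.2
    · exact fun h => ⟨Finset.mem_union_left _ h, h⟩
  · rw [mem_LL]
    refine ⟨hl.1.filter _, ?_, hl.2.2.sublist List.filter_sublist⟩
    ext a
    rw [List.mem_toFinset, List.mem_filter, hmem]
    simp only [decide_eq_true_eq, Finset.mem_union]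
    constructor
    · rintro ⟨h1 | h1, h2⟩
      · exact absurd h1 h2
      · exact h1
    · exact fun h => ⟨Or.inr h, fun h' => Finset.disjoint_left.1 hd h' h⟩

theorem length_LL {l : List V} (h : l ∈ LL r A) : l.length = A.card := by
  rw [mem_LL] at h
  rw [← List.toFinset_card_of_nodup h.1, h.2.1]

/-- **linear sums** -/
theorem card_sum (hd : Disjoint A B) (h : ∀ a ∈ A, ∀ b ∈ B, r a b) (h' : ∀ a ∈ A, ∀ b ∈ B, ¬ r b a)
    (p q₁ q₂ : List V → Prop)
    (hp : ∀ l₁ ∈ LL r A, ∀ l₂ ∈ LL r B, p (l₁ ++ l₂) ↔ q₁ l₁ ∧ q₂ l₂) :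
    cnt (LL r (A ∪ B)) p = cnt (LL r A) q₁ * cnt (LL r B) q₂ := by
  unfold cnt
  rw [← Finset.card_product]
  symm
  refine Finset.card_bij (fun x _ => x.1 ++ x.2) ?_ ?_ ?_
  · rintro ⟨l₁, l₂⟩ hl
    simp only [Finset.mem_product, Finset.mem_filter] at hl ⊢
    exact ⟨append_mem hd h' hl.1.1 hl.2.1, (hp _ hl.1.1 _ hl.2.1).2 ⟨hl.1.2, hl.2.2⟩⟩
  · rintro ⟨l₁, l₂⟩ hl ⟨l₁', l₂'⟩ hl' heq
    simp only [Finset.mem_product, Finset.mem_filter] at hl hl' heq
    obtain ⟨h1, h2⟩ := List.append_inj heq (by rw [length_LL hl.1.1, length_LL hl'.1.1])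
    rw [h1, h2]
  · intro l hl
    rw [Finset.mem_filter] at hl
    obtain ⟨l₁, h1, l₂, h2, rfl⟩ := split_mem' hd h hl.1
    have h3 := (hp _ h1 _ h2).1 hl.2
    exact ⟨(l₁, l₂), by simp [h1, h2, h3], rfl⟩

theorem idxOf_map {W : Type*} [DecidableEq W] {f : W → V} (hf : Function.Injective f) (a : W) :
    ∀ l : List W, (l.map f).idxOf (f a) = l.idxOf a := by
  intro l
  induction l with
  | nil => simp
  | cons b l ih =>
    rw [List.map_cons, List.idxOf_cons, List.idxOf_cons, ih]
    by_cases h : b = a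
    · subst h
      simp
    · have h' : f b ≠ f a := fun hh => h (hf hh)
      simp [beq_eq_false_iff_ne.2 h, beq_eq_false_iff_ne.2 h']

/-- **transport along an embedding** -/
theorem card_map {W : Type*} [DecidableEq W] (ι : W ↪ V) (S : Finset W) (p : List V → Prop) :
    cnt (LL r (S.map ι)) p = cnt (LL (fun i j => r (ι i) (ι j)) S) fun l => p (l.map ι) := by
  unfold cnt
  symm
  have hmem : ∀ l : List W, l ∈ LL (fun i j => r (ι i) (ι j)) S ↔ l.map ι ∈ LL r (S.map ι) := by
    intro l
    rw [mem_LL, mem_LL, List.nodup_map_iff ι.injective, List.pairwise_map]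
    refine and_congr_right fun _ => and_congr_left fun _ => ?_
    rw [Finset.ext_iff, Finset.ext_iff]
    constructor
    · intro h a
      rw [List.mem_toFinset, List.mem_map, Finset.mem_map]
      constructor
      · rintro ⟨b, hb, rfl⟩
        exact ⟨b, (h b).1 (List.mem_toFinset.2 hb), rfl⟩
      · rintro ⟨b, hb, rfl⟩
        exact ⟨b, List.mem_toFinset.1 ((h b).2 hb), rfl⟩
    · intro h a
      have h1 := h (ι a)
      rw [List.mem_toFinset, List.mem_map_of_injective ι.injective, Finset.mem_map'] at h1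
      rw [List.mem_toFinset]
      exact h1
  refine Finset.card_bij (fun l _ => l.map ι) ?_ ?_ ?_
  · intro l hl
    rw [Finset.mem_filter] at hl ⊢
    exact ⟨(hmem l).1 hl.1, hl.2⟩
  · intro l _ l' _ h
    exact List.map_injective_iff.2 ι.injective h
  · intro l hl
    rw [Finset.mem_filter] at hl
    have h1 : l ∈ Set.range (List.map ι) := by
      rw [Set.range_list_map]
      intro x hx
      have := (mem_of_LL hl.1 x).1 hx
      rw [Finset.mem_map] at this
      obtain ⟨y, -, hy⟩ := this
      exact ⟨y, hy⟩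
    obtain ⟨l', rfl⟩ := h1
    exact ⟨l', Finset.mem_filter.2 ⟨(hmem l').2 hl.1, hl.2⟩, rfl⟩

end lists

section prob

variable {n : ℕ} {r : Fin n → Fin n → Prop}

/-- probabilities by lists -/
theorem prob_eq_list (r : Fin n → Fin n → Prop) (x y : Fin n) :
    prob r x y = (cnt (LL r univ) fun l => l.idxOf x < l.idxOf y : ℝ) /
      ((LL r univ).card : ℝ) := by
  rw [Pool.Agent.BFT.prob_eq_Pr, Pool.Agent.BFT.Pr_eq_card]
  have h1 : ((LEs r).filter fun σ => σ x < σ y).card =
      cnt (LL r univ) fun l => l.idxOf x < l.idxOf y := by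
    refine Eq.trans ?_ (card_LEs r (fun l => l.idxOf x < l.idxOf y))
    congr 1
    ext σ
    simp only [Finset.mem_filter, idxOf_lst, Fin.lt_def]
  have h2 : (LEs r).card = (LL r univ).card := by
    have h3 := card_LEs r (fun _ => True)
    refine Eq.trans ?_ (h3.trans (cnt_true _))
    congr 1
    ext σ
    simp
  rw [← h1, ← h2]
  congr 3
  ext σ
  simp

/-- the relation induced on the subset `A` -/
noncomputable def sub (r : Fin n → Fin n → Prop) (A : Finset (Fin n)) :
    Fin A.card → Fin A.card → Prop :=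
  fun i j => r (A.orderEmbOfFin rfl i) (A.orderEmbOfFin rfl j)

theorem sub_poset (hr : IsPoset r) (A : Finset (Fin n)) : IsPoset (sub r A) := by
  refine ⟨fun a => hr.1 _, fun a b c => hr.2.1 _ _ _, fun a b h1 h2 => ?_⟩
  exact (A.orderEmbOfFin rfl).injective (hr.2.2 _ _ h1 h2)

theorem prob_sub (r : Fin n → Fin n → Prop) (A : Finset (Fin n)) (i j : Fin A.card) :
    prob (sub r A) i j = (cnt (LL r A) fun l =>
      l.idxOf (A.orderEmbOfFin rfl i) < l.idxOf (A.orderEmbOfFin rfl j) : ℝ) /
      ((LL r A).card : ℝ) := by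
  rw [prob_eq_list]
  have h1 := card_map (r := r) (A.orderEmbOfFin rfl).toEmbedding univ
    (fun l => l.idxOf (A.orderEmbOfFin rfl i) < l.idxOf (A.orderEmbOfFin rfl j))
  have h2 := card_map (r := r) (A.orderEmbOfFin rfl).toEmbedding univ (fun _ => True)
  rw [Finset.map_orderEmbOfFin_univ] at h1 h2
  rw [cnt_true, cnt_true] at h2
  rw [h1, h2]
  congr 2
  refine cnt_congr fun l _ => ?_
  have h3 := fun a => idxOf_map (A.orderEmbOfFin rfl).injective a l
  have h4 : (l.map (A.orderEmbOfFin rfl).toEmbedding) = l.map (A.orderEmbOfFin rfl) := rfl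
  rw [h4, h3, h3]

theorem LL_card_pos (hr : IsPoset r) (A : Finset (Fin n)) : 0 < (LL r A).card := by
  rw [card_LL']
  exact e_pos' r hr.2.1 (fun a b h1 h2 => hr.2.2 a b h1 h2) _

/-- the lower summand -/
theorem prob_lower (hr : IsPoset r) {A : Finset (Fin n)} (h : ∀ a ∈ A, ∀ b, b ∉ A → r a b)
    (i j : Fin A.card) :
    prob r (A.orderEmbOfFin rfl i) (A.orderEmbOfFin rfl j) = prob (sub r A) i j := by
  have hd : Disjoint A Aᶜ := disjoint_compl_right
  have h1 : ∀ a ∈ A, ∀ b ∈ Aᶜ, r a b := fun a ha b hb => h a ha b (Finset.mem_compl.1 hb)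
  have h2 : ∀ a ∈ A, ∀ b ∈ Aᶜ, ¬ r b a := by
    intro a ha b hb hba
    have := hr.2.2 a b (h1 a ha b hb) hba
    subst this
    exact Finset.mem_compl.1 hb ha
  have hi : A.orderEmbOfFin rfl i ∈ A := A.orderEmbOfFin_mem rfl i
  have hj : A.orderEmbOfFin rfl j ∈ A := A.orderEmbOfFin_mem rfl j
  have k1 := card_sum hd h1 h2 (fun l => l.idxOf (A.orderEmbOfFin rfl i) <
    l.idxOf (A.orderEmbOfFin rfl j)) (fun l => l.idxOf (A.orderEmbOfFin rfl i) <
    l.idxOf (A.orderEmbOfFin rfl j)) (fun _ => True) (by
      intro l₁ hl₁ l₂ _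
      rw [List.idxOf_append_of_mem ((mem_of_LL hl₁ _).2 hi),
        List.idxOf_append_of_mem ((mem_of_LL hl₁ _).2 hj)]
      simp)
  have k2 := card_sum hd h1 h2 (fun _ => True) (fun _ => True) (fun _ => True) (by simp)
  rw [cnt_true] at k1
  rw [cnt_true, cnt_true, cnt_true] at k2
  rw [Finset.union_compl] at k1 k2
  rw [prob_eq_list, prob_sub, k1, k2]
  push_cast
  have := LL_card_pos hr Aᶜ
  rw [mul_div_mul_right _ _ (by positivity)]

/-- the upper summand -/
theorem prob_upper (hr : IsPoset r) {A : Finset (Fin n)} (h : ∀ a ∈ A, ∀ b, b ∉ A → r b a)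
    (i j : Fin A.card) :
    prob r (A.orderEmbOfFin rfl i) (A.orderEmbOfFin rfl j) = prob (sub r A) i j := by
  have hd : Disjoint Aᶜ A := disjoint_compl_left
  have h1 : ∀ a ∈ Aᶜ, ∀ b ∈ A, r a b := fun a ha b hb => h b hb a (Finset.mem_compl.1 ha)
  have h2 : ∀ a ∈ Aᶜ, ∀ b ∈ A, ¬ r b a := by
    intro a ha b hb hba
    have := hr.2.2 a b (h1 a ha b hb) hba
    subst this
    exact Finset.mem_compl.1 ha hb
  have hi : A.orderEmbOfFin rfl i ∉ Aᶜ := by
    rw [Finset.mem_compl, not_not]
    exact A.orderEmbOfFin_mem rfl i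
  have hj : A.orderEmbOfFin rfl j ∉ Aᶜ := by
    rw [Finset.mem_compl, not_not]
    exact A.orderEmbOfFin_mem rfl j
  have k1 := card_sum hd h1 h2 (fun l => l.idxOf (A.orderEmbOfFin rfl i) <
    l.idxOf (A.orderEmbOfFin rfl j)) (fun _ => True) (fun l => l.idxOf (A.orderEmbOfFin rfl i) <
    l.idxOf (A.orderEmbOfFin rfl j)) (by
      intro l₁ hl₁ l₂ _
      rw [List.idxOf_append_of_notMem (fun hh => hi ((mem_of_LL hl₁ _).1 hh)),
        List.idxOf_append_of_notMem (fun hh => hj ((mem_of_LL hl₁ _).1 hh))]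
      simp)
  have k2 := card_sum hd h1 h2 (fun _ => True) (fun _ => True) (fun _ => True) (by simp)
  rw [cnt_true] at k1
  rw [cnt_true, cnt_true, cnt_true] at k2
  rw [Finset.union_comm, Finset.union_compl] at k1 k2
  rw [prob_eq_list, prob_sub, k1, k2]
  push_cast
  have := LL_card_pos hr Aᶜ
  rw [mul_div_mul_left _ _ (by positivity)]

theorem prob_le_one (r : Fin n → Fin n → Prop) (x y : Fin n) : prob r x y ≤ 1 := by
  rw [prob_eq_list]
  refine div_le_one_of_le₀ ?_ (by positivity)
  exact_mod_cast cnt_le (LL r univ) _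

theorem min_le_balance {x y : Fin n} (h1 : ¬ r x y) (h2 : ¬ r y x) :
    min (prob r x y) (prob r y x) ≤ balance r := by
  refine le_csSup ⟨1, ?_⟩ ⟨x, y, h1, h2, rfl⟩
  rintro t ⟨a, b, -, -, rfl⟩
  exact (min_le_left _ _).trans (prob_le_one r a b)

theorem balance_sub_le (_hr : IsPoset r) {A : Finset (Fin n)}
    (h : ∀ i j : Fin A.card,
      prob r (A.orderEmbOfFin rfl i) (A.orderEmbOfFin rfl j) = prob (sub r A) i j) :
    balance (sub r A) ≤ balance r := by
  have h0 : 0 ≤ balance r := by
    unfold balance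
    refine Real.sSup_nonneg ?_
    rintro t ⟨x, y, -, -, rfl⟩
    have h1 : ∀ x y, 0 ≤ prob r x y := fun x y => by
      unfold prob
      positivity
    exact le_min (h1 _ _) (h1 _ _)
  conv_lhs => unfold balance
  refine Real.sSup_le ?_ h0
  rintro t ⟨i, j, h1, h2, rfl⟩
  rw [← h i j, ← h j i]
  exact min_le_balance h1 h2

end prob

/-- **reduction to posets which are not linear sums** -/
theorem reduce {w : ℕ} {Q : ℝ → Prop} (hQ : ∀ a b, a ≤ b → Q a → Q b)
    (h : ∀ (n : ℕ) (r : Fin n → Fin n → Prop), IsPoset r → HasWidth r w → Indec r →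
      Q (balance r)) :
    ∀ (n : ℕ) (r : Fin n → Fin n → Prop), IsPoset r → HasWidth r w → Q (balance r) := by
  intro n
  induction n using Nat.strong_induction_on with
  | _ n ih =>
    intro r hr hw
    by_cases hi : Indec r
    · exact h n r hr hw hi
    · unfold Indec at hi
      push Not at hi
      obtain ⟨s, hs, hsu, hlt⟩ := hi
      obtain ⟨⟨t, ht, hta⟩, hmax⟩ := hw
      -- an antichain lies in one of the summands
      have hanti : (∀ a ∈ t, a ∈ s) ∨ (∀ a ∈ t, a ∈ sᶜ) := by
        by_contra hcon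
        push Not at hcon
        obtain ⟨⟨a, ha, has⟩, b, hb, hbs⟩ := hcon
        rw [Finset.mem_compl, not_not] at hbs
        have hne : b ≠ a := by
          rintro rfl
          exact has hbs
        exact hta b hb a ha hne (hlt b hbs a has)
      -- the width of a summand containing a largest antichain
      have hwid : ∀ A : Finset (Fin n), (∀ a ∈ t, a ∈ A) → HasWidth (sub r A) w := by
        intro A hA
        constructor
        · refine ⟨univ.filter fun i => A.orderEmbOfFin rfl i ∈ t, ?_, ?_⟩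
          · rw [← ht]
            refine Finset.card_bij (fun i _ => A.orderEmbOfFin rfl i) ?_ ?_ ?_
            · intro i hi
              exact (Finset.mem_filter.1 hi).2
            · intro i _ j _ hij
              exact (A.orderEmbOfFin rfl).injective hij
            · intro a ha
              have h1 : a ∈ Set.range (A.orderEmbOfFin rfl) := by
                rw [Finset.range_orderEmbOfFin]
                exact hA a ha
              obtain ⟨i, rfl⟩ := h1
              exact ⟨i, Finset.mem_filter.2 ⟨Finset.mem_univ _, ha⟩, rfl⟩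
          · intro i hi j hj hij
            exact hta _ (Finset.mem_filter.1 hi).2 _ (Finset.mem_filter.1 hj).2
              fun hh => hij ((A.orderEmbOfFin rfl).injective hh)
        · intro u hu
          have h1 := hmax (u.map (A.orderEmbOfFin rfl).toEmbedding) (by
            intro a ha b hb hab
            rw [Finset.mem_map] at ha hb
            obtain ⟨i, hi, rfl⟩ := ha
            obtain ⟨j, hj, rfl⟩ := hb
            exact hu i hi j hj fun hh => hab (by rw [hh]))
          rwa [Finset.card_map] at h1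
      have hcard : ∀ A : Finset (Fin n), A ≠ univ → A.card < n := by
        intro A hA
        by_contra hcon
        apply hA
        refine Finset.eq_univ_of_card A ?_
        rw [Fintype.card_fin]
        have := Finset.card_le_univ A
        rw [Fintype.card_fin] at this
        omega
      rcases hanti with hA | hA
      · refine hQ _ _ (balance_sub_le hr (prob_lower hr fun a ha b hb => hlt a ha b hb)) ?_
        exact ih _ (hcard s hsu) _ (sub_poset hr s) (hwid s hA)
      · have hup : ∀ a ∈ sᶜ, ∀ b, b ∉ sᶜ → r b a := by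
          intro a ha b hb
          rw [Finset.mem_compl] at ha hb
          rw [not_not] at hb
          exact hlt b hb a ha
        refine hQ _ _ (balance_sub_le hr (prob_upper hr hup)) ?_
        · refine ih _ (hcard sᶜ fun hh => ?_) _ (sub_poset hr sᶜ) (hwid sᶜ hA)
          obtain ⟨x, hx⟩ := hs
          have h1 : x ∈ sᶜ := by
            rw [hh]
            exact Finset.mem_univ _
          exact Finset.mem_compl.1 h1 hx

end Pool.Agent.Helper99.W3
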