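import Mathlib
import Pool.Agent.W3.Base
import Pool.Agent.W3.World
import Pool.Agent.Helper99.W3.Blocks

/-!
# The order part of the spine lemma

`X` is the set before `w` in the majority order, `ys` the maximal elements of `X` not below `w`,
`zs` the elements other than `w` which can be added to `X`.
-/

set_option autoImplicit false
set_option linter.unusedSectionVars false

namespace Pool.Agent.Helper99.W3

open Finset Pool.BFT Pool.Agent.W3 Pool.Agent.Helper1.Balance
open scoped Classical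

section Gen

variable {V : Type} [Fintype V] [DecidableEq V] {r : V → V → Prop} {pos : V → ℕ} {w : V}

theorem mem_before {v : V} : v ∈ before pos w ↔ pos v < pos w := by
  simp [before]

theorem before_dn (hm : ∀ a b, r a b → pos a ≤ pos b) : Dn r (before pos w) := by
  intro x hx y hy
  rw [mem_before] at hx ⊢
  exact lt_of_le_of_lt (hm y x hy) hx

theorem before_dn' (hp : Function.Injective pos) (hm : ∀ a b, r a b → pos a ≤ pos b) :
    Dn r (insert w (before pos w)) := by
  intro x hx y hy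
  rw [mem_insert, mem_before] at hx ⊢
  rcases hx with rfl | hx
  · rcases (hm y x hy).lt_or_eq with h | h
    · exact Or.inr h
    · exact Or.inl (hp h)
  · exact Or.inr (lt_of_le_of_lt (hm y x hy) hx)

theorem not_mem_before : w ∉ before pos w := by
  rw [mem_before]
  exact lt_irrefl _

/-- the blockers below -/
noncomputable def ys (r : V → V → Prop) (pos : V → ℕ) (w : V) : Finset V :=
  (pv r (before pos w)).filter fun a => ¬ r a w

/-- the blockers above -/
noncomputable def zs (r : V → V → Prop) (pos : V → ℕ) (w : V) : Finset V :=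
  (nx r (before pos w)).erase w

theorem mem_ys {y : V} : y ∈ ys r pos w ↔
    (y ∈ before pos w ∧ Dn r ((before pos w).erase y)) ∧ ¬ r y w := by
  rw [ys, mem_filter, mem_pv]

theorem mem_zs {z : V} : z ∈ zs r pos w ↔
    z ≠ w ∧ z ∉ before pos w ∧ Dn r (insert z (before pos w)) := by
  rw [zs, mem_erase, mem_nx]

theorem nbl_eq : nbl r pos w = (ys r pos w).card := by
  unfold nbl ys
  congr

theorem nab_eq : nab r pos w = (zs r pos w).card := rfl

theorem ys_pos {y : V} (h : y ∈ ys r pos w) : pos y < pos w := mem_before.1 (mem_ys.1 h).1.1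

theorem zs_pos (hp : Function.Injective pos) {z : V} (h : z ∈ zs r pos w) : pos w < pos z := by
  obtain ⟨h1, h2, -⟩ := mem_zs.1 h
  rw [mem_before] at h2
  rcases (not_lt.1 h2).lt_or_eq with h3 | h3
  · exact h3
  · exact absurd (hp h3).symm h1

theorem ys_not (hm : ∀ a b, r a b → pos a ≤ pos b) {y : V} (h : y ∈ ys r pos w) :
    ¬ r y w ∧ ¬ r w y := by
  refine ⟨(mem_ys.1 h).2, fun h1 => ?_⟩
  have h2 := hm _ _ h1
  have h3 := ys_pos h
  omega

theorem zs_not (hp : Function.Injective pos) (hm : ∀ a b, r a b → pos a ≤ pos b) {z : V}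
    (h : z ∈ zs r pos w) : ¬ r z w ∧ ¬ r w z := by
  refine ⟨fun h1 => ?_, fun h1 => ?_⟩
  · have h2 := hm _ _ h1
    have h3 := zs_pos hp h
    omega
  · obtain ⟨h2, -, h4⟩ := mem_zs.1 h
    have h5 := h4 z (mem_insert_self _ _) w h1
    rw [mem_insert] at h5
    rcases h5 with h5 | h5
    · exact h2 h5.symm
    · exact not_mem_before h5

theorem ys_anti {y y' : V} (h : y ∈ ys r pos w) (h' : y' ∈ ys r pos w) (hne : y ≠ y') :
    ¬ r y y' := by
  intro h1
  obtain ⟨⟨-, h3⟩, -⟩ := mem_ys.1 h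
  obtain ⟨⟨h2, -⟩, -⟩ := mem_ys.1 h'
  have h4 := h3 y' (mem_erase.2 ⟨hne.symm, h2⟩) y h1
  exact (mem_erase.1 h4).1 rfl

theorem zs_anti {z z' : V} (h : z ∈ zs r pos w) (h' : z' ∈ zs r pos w) (hne : z ≠ z') :
    ¬ r z z' := by
  intro h1
  obtain ⟨-, h2, -⟩ := mem_zs.1 h
  obtain ⟨-, -, h3⟩ := mem_zs.1 h'
  have h4 := h3 z' (mem_insert_self _ _) z h1
  rw [mem_insert] at h4
  rcases h4 with h4 | h4
  · exact hne h4
  · exact h2 h4

theorem zs_ys (hm : ∀ a b, r a b → pos a ≤ pos b) {y z : V} (h : y ∈ ys r pos w)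
    (h' : z ∈ zs r pos w) : ¬ r z y := by
  intro h1
  obtain ⟨⟨h2, -⟩, -⟩ := mem_ys.1 h
  exact (mem_zs.1 h').2.1 (before_dn hm y h2 z h1)

theorem ys_ne_zs {y z : V} (h : y ∈ ys r pos w) (h' : z ∈ zs r pos w) : y ≠ z := by
  rintro rfl
  exact (mem_zs.1 h').2.1 (mem_ys.1 h).1.1

theorem ys_ne {y : V} (h : y ∈ ys r pos w) : y ≠ w := by
  rintro rfl
  exact not_mem_before (mem_ys.1 h).1.1

theorem zs_ne {z : V} (h : z ∈ zs r pos w) : z ≠ w := (mem_zs.1 h).1

theorem card_insert_anti (hwid : ∀ s : Finset V, (∀ a ∈ s, ∀ b ∈ s, a ≠ b → ¬ r a b) → s.card ≤ 3)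
    {s : Finset V} (hs : ∀ a ∈ s, ∀ b ∈ s, a ≠ b → ¬ r a b)
    (hw : ∀ a ∈ s, ¬ r a w ∧ ¬ r w a ∧ a ≠ w) : s.card ≤ 2 := by
  have h1 := hwid (insert w s) (by
    intro a ha b hb hab
    rw [mem_insert] at ha hb
    rcases ha with rfl | ha
    · rcases hb with rfl | hb
      · exact absurd rfl hab
      · exact (hw b hb).2.1
    · rcases hb with rfl | hb
      · exact (hw a ha).1
      · exact hs a ha b hb hab)
  rw [card_insert_of_notMem (fun h => (hw w h).2.2 rfl)] at h1
  omega

theorem ys_card (hm : ∀ a b, r a b → pos a ≤ pos b)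
    (hwid : ∀ s : Finset V, (∀ a ∈ s, ∀ b ∈ s, a ≠ b → ¬ r a b) → s.card ≤ 3) :
    (ys r pos w).card ≤ 2 :=
  card_insert_anti (w := w) hwid (fun _ ha _ hb hab => ys_anti ha hb hab)
    fun _ ha => ⟨(ys_not hm ha).1, (ys_not hm ha).2, ys_ne ha⟩

theorem zs_card (hp : Function.Injective pos) (hm : ∀ a b, r a b → pos a ≤ pos b)
    (hwid : ∀ s : Finset V, (∀ a ∈ s, ∀ b ∈ s, a ≠ b → ¬ r a b) → s.card ≤ 3) :
    (zs r pos w).card ≤ 2 :=
  card_insert_anti (w := w) hwid (fun _ ha _ hb hab => zs_anti ha hb hab)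
    fun _ ha => ⟨(zs_not hp hm ha).1, (zs_not hp hm ha).2, zs_ne ha⟩

/-- an upper blocker and two lower blockers -/
theorem rel_low (hp : Function.Injective pos) (hm : ∀ a b, r a b → pos a ≤ pos b)
    (hwid : ∀ s : Finset V, (∀ a ∈ s, ∀ b ∈ s, a ≠ b → ¬ r a b) → s.card ≤ 3)
    {y y' z : V} (hy : y ∈ ys r pos w) (hy' : y' ∈ ys r pos w) (hne : y ≠ y')
    (hz : z ∈ zs r pos w) : r y z ∨ r y' z := by
  by_contra hcon
  push Not at hcon
  have h1 := card_insert_anti (w := w) (s := {y, y', z}) hwid (by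
    intro a ha b hb hab
    simp only [mem_insert, mem_singleton] at ha hb
    rcases ha with rfl | rfl | rfl <;> rcases hb with rfl | rfl | rfl
    · exact absurd rfl hab
    · exact ys_anti hy hy' hab
    · exact hcon.1
    · exact ys_anti hy' hy hab
    · exact absurd rfl hab
    · exact hcon.2
    · exact zs_ys hm hy hz
    · exact zs_ys hm hy' hz
    · exact absurd rfl hab) (by
    intro a ha
    simp only [mem_insert, mem_singleton] at ha
    rcases ha with rfl | rfl | rfl
    · exact ⟨(ys_not hm hy).1, (ys_not hm hy).2, ys_ne hy⟩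
    · exact ⟨(ys_not hm hy').1, (ys_not hm hy').2, ys_ne hy'⟩
    · exact ⟨(zs_not hp hm hz).1, (zs_not hp hm hz).2, zs_ne hz⟩)
  have h2 : ({y, y', z} : Finset V).card = 3 := by
    rw [card_eq_three]
    exact ⟨y, y', z, hne, ys_ne_zs hy hz, ys_ne_zs hy' hz, rfl⟩
  omega

/-- a lower blocker and two upper blockers -/
theorem rel_up (hp : Function.Injective pos) (hm : ∀ a b, r a b → pos a ≤ pos b)
    (hwid : ∀ s : Finset V, (∀ a ∈ s, ∀ b ∈ s, a ≠ b → ¬ r a b) → s.card ≤ 3)
    {y z z' : V} (hy : y ∈ ys r pos w) (hz : z ∈ zs r pos w) (hz' : z' ∈ zs r pos w)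
    (hne : z ≠ z') : r y z ∨ r y z' := by
  by_contra hcon
  push Not at hcon
  have h1 := card_insert_anti (w := w) (s := {y, z, z'}) hwid (by
    intro a ha b hb hab
    simp only [mem_insert, mem_singleton] at ha hb
    rcases ha with rfl | rfl | rfl <;> rcases hb with rfl | rfl | rfl
    · exact absurd rfl hab
    · exact hcon.1
    · exact hcon.2
    · exact zs_ys hm hy hz
    · exact absurd rfl hab
    · exact zs_anti hz hz' hab
    · exact zs_ys hm hy hz'
    · exact zs_anti hz' hz hab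
    · exact absurd rfl hab) (by
    intro a ha
    simp only [mem_insert, mem_singleton] at ha
    rcases ha with rfl | rfl | rfl
    · exact ⟨(ys_not hm hy).1, (ys_not hm hy).2, ys_ne hy⟩
    · exact ⟨(zs_not hp hm hz).1, (zs_not hp hm hz).2, zs_ne hz⟩
    · exact ⟨(zs_not hp hm hz').1, (zs_not hp hm hz').2, zs_ne hz'⟩)
  have h2 : ({y, z, z'} : Finset V).card = 3 := by
    rw [card_eq_three]
    exact ⟨y, z, z', ys_ne_zs hy hz, ys_ne_zs hy hz', hne, rfl⟩
  omega

/-- the set `X` is determined by the blockers -/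
theorem eq_before (hp : Function.Injective pos) (hm : ∀ a b, r a b → pos a ≤ pos b)
    {D : Finset V} (hD : Dn r D) (hwD : w ∉ D) (hDw : Dn r (insert w D))
    (hy : ∀ y ∈ ys r pos w, y ∈ D) (hz : ∀ z ∈ zs r pos w, z ∉ D) : D = before pos w := by
  apply Subset.antisymm
  · by_contra hcon
    have hne : (D \ before pos w).Nonempty := by
      rw [nonempty_iff_ne_empty, Ne, sdiff_eq_empty_iff_subset]
      exact hcon
    obtain ⟨v, hv, hmin⟩ := exists_min_image _ pos hne
    rw [mem_sdiff] at hv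
    have hvw : v ≠ w := by
      rintro rfl
      exact hwD hv.1
    refine hz v (mem_zs.2 ⟨hvw, hv.2, ?_⟩) hv.1
    intro a ha b hb
    rw [mem_insert] at ha ⊢
    rcases ha with rfl | ha
    · by_cases hbv : b = a
      · exact Or.inl hbv
      · right
        by_contra hbX
        have h1 := hmin b (mem_sdiff.2 ⟨hD a hv.1 b hb, hbX⟩)
        have h2 := hm b a hb
        exact hbv (hp (le_antisymm h2 h1))
    · exact Or.inr (before_dn hm a ha b hb)
  · by_contra hcon
    have hne : (before pos w \ D).Nonempty := by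
      rw [nonempty_iff_ne_empty, Ne, sdiff_eq_empty_iff_subset]
      exact hcon
    obtain ⟨v, hv, hmax⟩ := exists_max_image _ pos hne
    rw [mem_sdiff] at hv
    have hvw : ¬ r v w := by
      intro h
      have h1 := hDw w (mem_insert_self _ _) v h
      rw [mem_insert] at h1
      rcases h1 with rfl | h1
      · exact not_mem_before hv.1
      · exact hv.2 h1
    refine hv.2 (hy v (mem_ys.2 ⟨⟨hv.1, ?_⟩, hvw⟩))
    intro a ha b hb
    rw [mem_erase] at ha ⊢
    refine ⟨?_, before_dn hm a ha.2 b hb⟩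
    rintro rfl
    have haD : a ∉ D := fun h => hv.2 (hD a h b hb)
    have h1 := hmax a (mem_sdiff.2 ⟨ha.2, haD⟩)
    have h2 := hm b a hb
    exact ha.1 (hp (le_antisymm h1 h2))

end Gen

section Prob

variable {n : ℕ} {r : Fin n → Fin n → Prop}

/-- the marginal of an upper blocker -/
theorem up_le (hr : IsPoset r) {w z : Fin n} (hwz : w ≠ z) (h : prob r z w ≤ (167 : ℝ) / 500) :
    500 * ∑ D ∈ (Sx r w w).filter (fun D => z ∈ D), e r D * H r (insert w D) ≤
      167 * H r ∅ := by
  have h1 := prob_eq_sum (r := r) hwz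
  have h2 := sum_bf hr w
  have h3 : (Sx r w w).filter (fun D => z ∉ D) = Sx r w z := by
    ext D
    rw [mem_filter, mem_Sx, mem_Sx]
    tauto
  have h4 := sum_filter_add_sum_filter_not (Sx r w w) (fun D => z ∈ D)
    (fun D => e r D * H r (insert w D))
  rw [h3, h2] at h4
  have h5 := Pool.Agent.Helper8.KS.prob_add' r hr hwz
  have h6 : (0 : ℝ) < e r univ := by exact_mod_cast e_univ_pos (po_of hr)
  rw [H_empty] at h4 ⊢
  set a := ∑ x ∈ Sx r w w with z ∈ x, e r x * H r (insert w x) with ha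
  set b := ∑ x ∈ Sx r w z, e r x * H r (insert w x) with hb
  set N := e r univ with hN
  have h7 : (a : ℝ) + b = N := by exact_mod_cast h4
  have h8 : prob r w z * N = b := by
    rw [h1]
    field_simp
  have h9 : (1 - prob r z w) * N = b := by
    rw [← h8]
    congr 1
    linarith
  have h10 : (500 : ℝ) * a ≤ 167 * N := by
    have h11 : prob r z w * N ≤ 167 / 500 * N := mul_le_mul_of_nonneg_right h h6.le
    linarith
  exact_mod_cast h10

/-- the marginal of a lower blocker -/
theorem low_le (hr : IsPoset r) {w y : Fin n} (hwy : w ≠ y) (h : prob r w y ≤ (167 : ℝ) / 500) :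
    500 * ∑ D ∈ (Sx r w w).filter (fun D => y ∉ D), e r D * H r (insert w D) ≤
      167 * H r ∅ := by
  have h3 : (Sx r w w).filter (fun D => y ∉ D) = Sx r w y := by
    ext D
    rw [mem_filter, mem_Sx, mem_Sx]
    tauto
  rw [h3]
  exact sum_le_of_prob (p := 167) (q := 500) hr hwy (by norm_num) (by exact_mod_cast h)

end Prob

end Pool.Agent.Helper99.W3
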