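import Mathlib
import Pool.Agent.W3.TP2
import Pool.Agent.Helper99.W3.SpineOrd

/-!
# The spine lemma

In the majority order the probability that `X ∪ {w}`, `X` the set before `w`, is reached through
`X` is at least `cst nb na / 10 ^ 6`.
-/

set_option autoImplicit false
set_option linter.unusedSectionVars false

namespace Pool.Agent.Helper99.W3

open Finset Pool.BFT Pool.Agent.W3 Pool.Agent.Helper1.Balance
open scoped Classical

variable {n : ℕ} {r : Fin n → Fin n → Prop}

/-- the weight of `D` -/
noncomputable def wt (r : Fin n → Fin n → Prop) (w : Fin n) (D : Finset (Fin n)) : ℕ :=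
  e r D * H r (insert w D)

theorem closed (w : Fin n) : ∀ A ∈ Sx r w w, ∀ B ∈ Sx r w w, A ∪ B ∈ Sx r w w ∧ A ∩ B ∈ Sx r w w := by
  intro A hA B hB
  rw [mem_Sx] at hA hB
  rw [mem_Sx, mem_Sx]
  refine ⟨⟨hA.1.union hB.1, ?_, ?_, ?_⟩, hA.1.inter hB.1, ?_, ?_, ?_⟩
  · simp [hA.2.1, hB.2.1]
  · simp [hA.2.1, hB.2.1]
  · rw [insert_union_distrib]
    exact hA.2.2.2.union hB.2.2.2
  · simp [hA.2.1]
  · simp [hA.2.1]
  · rw [insert_inter_distrib]
    exact hA.2.2.2.inter hB.2.2.2

theorem wt_mul (w : Fin n) : ∀ A ∈ Sx r w w, ∀ B ∈ Sx r w w,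
    wt r w A * wt r w B ≤ wt r w (A ∩ B) * wt r w (A ∪ B) := by
  intro A hA B hB
  rw [mem_Sx] at hA hB
  exact mu_mul_le hA.1 hB.1 hA.2.2.2 hB.2.2.2

section

variable (hr : IsPoset r) (pos : Fin n → ℕ) (hp : Function.Injective pos)
  (hm : ∀ a b, r a b → pos a ≤ pos b)
  (hwid : ∀ s : Finset (Fin n), (∀ a ∈ s, ∀ b ∈ s, a ≠ b → ¬ r a b) → s.card ≤ 3)
  (hmaj : ∀ a b, pos a < pos b → prob r b a ≤ (167 : ℝ) / 500) (w : Fin n)

include hr hp hm

theorem before_mem : before pos w ∈ Sx r w w := by
  rw [mem_Sx]
  exact ⟨before_dn hm, not_mem_before, not_mem_before, before_dn' hp hm⟩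

theorem centre {row col : Finset (Fin n) → ℕ} (hX : row (before pos w) = 1)
    (hX' : col (before pos w) = 1)
    (h : ∀ D ∈ Sx r w w, row D = 1 → col D = 1 →
      (∀ y ∈ ys r pos w, y ∈ D) ∧ ∀ z ∈ zs r pos w, z ∉ D) :
    blk (Sx r w w) (wt r w) row col 1 1 = wt r w (before pos w) := by
  refine blk_single (before_mem hr pos hp hm w) hX hX' fun D hD h1 h2 => ?_
  obtain ⟨h3, h4⟩ := h D hD h1 h2
  have h5 := mem_Sx.1 hD
  exact eq_before hp hm h5.1 h5.2.1 h5.2.2.2 h3 h4

include hmaj in
theorem low_le' {y : Fin n} (hy : y ∈ ys r pos w) :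
    500 * ∑ D ∈ (Sx r w w).filter (fun D => y ∉ D), wt r w D ≤ 167 * H r ∅ :=
  low_le hr (ys_ne hy).symm (hmaj y w (ys_pos hy))

include hmaj in
theorem up_le' {z : Fin n} (hz : z ∈ zs r pos w) :
    500 * ∑ D ∈ (Sx r w w).filter (fun D => z ∈ D), wt r w D ≤ 167 * H r ∅ :=
  up_le hr (zs_ne hz).symm (hmaj w z (zs_pos hp hz))

theorem pair_of_rel {y z : Fin n} (h : r y z) : ∀ D ∈ Sx r w w, z ∈ D → y ∈ D :=
  fun _ hD hz => (mem_Sx.1 hD).1 z hz y h

end

theorem sum_filter_le {L : Finset (Finset (Fin n))} {μ : Finset (Fin n) → ℕ}
    {p q : Finset (Fin n) → Prop} [DecidablePred p] [DecidablePred q] (h : ∀ D, p D → q D) :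
    ∑ D ∈ L.filter p, μ D ≤ ∑ D ∈ L.filter q, μ D :=
  sum_le_sum_of_subset fun _ hD => mem_filter.2 ⟨(mem_filter.1 hD).1, h _ (mem_filter.1 hD).2⟩

/-- **the spine lemma** -/
theorem spine (hr : IsPoset r) (pos : Fin n → ℕ) (hp : Function.Injective pos)
    (hm : ∀ a b, r a b → pos a ≤ pos b)
    (hwid : ∀ s : Finset (Fin n), (∀ a ∈ s, ∀ b ∈ s, a ≠ b → ¬ r a b) → s.card ≤ 3)
    (hmaj : ∀ a b, pos a < pos b → prob r b a ≤ (167 : ℝ) / 500) (w : Fin n) :
    cst (nbl r pos w) (nab r pos w) * H r ∅ ≤
      1000000 * (e r (before pos w) * H r (insert w (before pos w))) := by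
  have hy2 := ys_card (w := w) hm hwid
  have hz2 := zs_card (w := w) hp hm hwid
  rw [nbl_eq, nab_eq]
  have hN := sum_bf hr w
  have hL := closed (r := r) w
  have hμ := wt_mul (r := r) w
  set L := Sx r w w with hLdef
  set μ := wt r w with hμdef
  set X := before pos w with hXdef
  have hXL : X ∈ L := before_mem hr pos hp hm w
  have hN' : ∑ D ∈ L, μ D = H r ∅ := hN
  have hyX : ∀ y ∈ ys r pos w, y ∈ X := fun y hy => (mem_ys.1 hy).1.1
  have hzX : ∀ z ∈ zs r pos w, z ∉ X := fun z hz => (mem_zs.1 hz).2.1
  have hlow : ∀ y ∈ ys r pos w, 500 * ∑ D ∈ L.filter (fun D => y ∉ D), μ D ≤ 167 * H r ∅ :=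
    fun y hy => low_le' hr pos hp hm hmaj w hy
  have hup : ∀ z ∈ zs r pos w, 500 * ∑ D ∈ L.filter (fun D => z ∈ D), μ D ≤ 167 * H r ∅ :=
    fun z hz => up_le' hr pos hp hm hmaj w hz
  -- marginals of the chain statistics
  have m1 : ∀ y ∈ ys r pos w, 500 * ∑ D ∈ L.filter (fun D => fLow y D = 0), μ D ≤ 167 * H r ∅ :=
    fun y hy => (Nat.mul_le_mul_left _ (sum_filter_le (L := L) (μ := μ)
      (p := fun D => fLow y D = 0) (q := fun D => y ∉ D) fun D h => fLow_eq_zero.1 h)).trans
      (hlow y hy)
  have m2 : ∀ z ∈ zs r pos w, 500 * ∑ D ∈ L.filter (fun D => fUp z D = 2), μ D ≤ 167 * H r ∅ :=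
    fun z hz => (Nat.mul_le_mul_left _ (sum_filter_le (L := L) (μ := μ)
      (p := fun D => fUp z D = 2) (q := fun D => z ∈ D) fun D h => fUp_eq_two.1 h)).trans
      (hup z hz)
  have m3 : ∀ y ∈ ys r pos w, ∀ z, 500 * ∑ D ∈ L.filter (fun D => fPair y z D = 0), μ D ≤
      167 * H r ∅ := fun y hy z =>
    (Nat.mul_le_mul_left _ (sum_filter_le (L := L) (μ := μ)
      (p := fun D => fPair y z D = 0) (q := fun D => y ∉ D)
      fun D h => (fPair_eq_zero.1 h).2)).trans (hlow y hy)
  have m4 : ∀ z ∈ zs r pos w, ∀ y, 500 * ∑ D ∈ L.filter (fun D => fPair y z D = 2), μ D ≤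
      167 * H r ∅ := fun z hz y =>
    (Nat.mul_le_mul_left _ (sum_filter_le (L := L) (μ := μ)
      (p := fun D => fPair y z D = 2) (q := fun D => z ∈ D)
      fun D h => fPair_eq_two.1 h)).trans (hup z hz)
  have hcen : ∀ {row col : Finset (Fin n) → ℕ}, row X = 1 → col X = 1 →
      (∀ D ∈ L, row D = 1 → col D = 1 → (∀ y ∈ ys r pos w, y ∈ D) ∧ ∀ z ∈ zs r pos w, z ∉ D) →
      blk L μ row col 1 1 = e r X * H r (insert w X) := fun h1 h2 h3 =>
    centre hr pos hp hm w h1 h2 h3
  rcases Nat.lt_or_ge (ys r pos w).card 1 with hy | hy
  · have hy0 : (ys r pos w).card = 0 := by omega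
    have hye : ys r pos w = ∅ := card_eq_zero.1 hy0
    rcases Nat.lt_or_ge (zs r pos w).card 1 with hz | hz
    · -- (0, 0)
      have hz0 : (zs r pos w).card = 0 := by omega
      have hze : zs r pos w = ∅ := card_eq_zero.1 hz0
      have hc := hcen (row := fun _ => 1) (col := fun _ => 1) rfl rfl (by
        intro D _ _ _
        rw [hye, hze]
        simp)
      have ht := sum_all (L := L) (μ := μ) (row := fun _ => 1) (col := fun _ => 1)
        (fun _ _ => by norm_num) (fun _ _ => by norm_num)
      have z1 : ∀ a b, a ≠ 1 ∨ b ≠ 1 → blk L μ (fun _ => 1) (fun _ => 1) a b = 0 := by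
        intro a b hab
        refine blk_zero fun D _ h => ?_
        rcases hab with h' | h'
        · exact h' h.1.symm
        · exact h' h.2.symm
      rw [z1 0 0 (by omega), z1 0 1 (by omega), z1 0 2 (by omega), z1 1 0 (by omega),
        z1 1 2 (by omega), z1 2 0 (by omega), z1 2 1 (by omega), z1 2 2 (by omega), hc, hN'] at ht
      rw [hy0, hz0]
      simp only [cst]
      omega
    · rcases Nat.lt_or_ge (zs r pos w).card 2 with hz' | hz'
      · -- (0, 1)
        have hz1 : (zs r pos w).card = 1 := by omega
        obtain ⟨z, hze⟩ := card_eq_one.1 hz1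
        have hzm : z ∈ zs r pos w := by rw [hze]; exact mem_singleton_self z
        have hc := hcen (row := fun _ => 1) (col := fUp z) rfl (fUp_eq_one.2 (hzX z hzm)) (by
          intro D _ _ h2
          rw [hye, hze]
          exact ⟨by simp, by simpa using fUp_eq_one.1 h2⟩)
        have ht := sum_all (L := L) (μ := μ) (row := fun _ => 1) (col := fUp z)
          (fun _ _ => by norm_num) (fun D _ => fUp_le z D)
        have hcol := sum_col (L := L) (μ := μ) (row := fun _ => 1) (col := fUp z)
          (fun _ _ => by norm_num) 2
        have z1 : ∀ a b, a ≠ 1 → blk L μ (fun _ => 1) (fUp z) a b = 0 :=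
          fun a b hab => blk_zero fun D _ h => hab h.1.symm
        have z2 : ∀ a, blk L μ (fun _ => 1) (fUp z) a 0 = 0 := fun a => blk_zero fun D _ h => by
          have := h.2
          unfold fUp at this
          split_ifs at this <;> omega
        rw [z1 0 0 (by omega), z1 0 1 (by omega), z1 0 2 (by omega), z2 1,
          z1 2 0 (by omega), z1 2 1 (by omega), z1 2 2 (by omega), hc, hN'] at ht
        rw [z1 0 2 (by omega), z1 2 2 (by omega)] at hcol
        have h1 := m2 z hzm
        rw [← hcol] at h1
        rw [hy0, hz1]
        simp only [cst]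
        exact tp01 (H r ∅) _ (blk L μ (fun _ => 1) (fUp z) 1 2) (by omega) (by omega)
      · -- (0, 2)
        have hz3 : (zs r pos w).card = 2 := by omega
        obtain ⟨z, z', hne, hze⟩ := card_eq_two.1 hz3
        have hzm : z ∈ zs r pos w := by rw [hze]; simp
        have hzm' : z' ∈ zs r pos w := by rw [hze]; simp
        have hc := hcen (row := fUp z) (col := fUp z') (fUp_eq_one.2 (hzX z hzm))
          (fUp_eq_one.2 (hzX z' hzm')) (by
          intro D _ h1 h2
          rw [hye, hze]
          refine ⟨by simp, ?_⟩
          have h3 := fUp_eq_one.1 h1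
          have h4 := fUp_eq_one.1 h2
          intro a ha
          simp only [mem_insert, mem_singleton] at ha
          rcases ha with rfl | rfl
          · exact h3
          · exact h4)
        have ht := sum_all (L := L) (μ := μ) (row := fUp z) (col := fUp z')
          (fun D _ => fUp_le z D) (fun D _ => fUp_le z' D)
        have hcol := sum_col (L := L) (μ := μ) (row := fUp z) (col := fUp z')
          (fun D _ => fUp_le z D) 2
        have hrow := sum_row (L := L) (μ := μ) (row := fUp z) (col := fUp z')
          (fun D _ => fUp_le z' D) 2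
        have z1 : ∀ b, blk L μ (fUp z) (fUp z') 0 b = 0 := fun b => blk_zero fun D _ h => by
          have := h.1
          unfold fUp at this
          split_ifs at this <;> omega
        have z2 : ∀ a, blk L μ (fUp z) (fUp z') a 0 = 0 := fun a => blk_zero fun D _ h => by
          have := h.2
          unfold fUp at this
          split_ifs at this <;> omega
        have hmul := blk_mul hL hμ (hom_up L z) (hom_up L z') 1 2 2 1
        rw [z1, z1, z1, z2 1, z2 2, hN'] at ht
        rw [z1] at hcol
        rw [z2] at hrow
        have h1 := m2 z hzm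
        have h2 := m2 z' hzm'
        rw [← hrow] at h1
        rw [← hcol] at h2
        rw [hy0, hz3, ← hc]
        simp only [cst]
        refine tp22 (H r ∅) _ (blk L μ (fUp z) (fUp z') 1 2) (blk L μ (fUp z) (fUp z') 2 1)
          (blk L μ (fUp z) (fUp z') 2 2) (by omega) (by simpa using h1) (by simpa using h2) ?_
        simpa using hmul
  · rcases Nat.lt_or_ge (ys r pos w).card 2 with hy' | hy'
    · have hy1 : (ys r pos w).card = 1 := by omega
      obtain ⟨y, hye⟩ := card_eq_one.1 hy1
      have hym : y ∈ ys r pos w := by rw [hye]; exact mem_singleton_self y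
      rcases Nat.lt_or_ge (zs r pos w).card 1 with hz | hz
      · -- (1, 0)
        have hz0 : (zs r pos w).card = 0 := by omega
        have hze : zs r pos w = ∅ := card_eq_zero.1 hz0
        have hc := hcen (row := fLow y) (col := fun _ => 1) (fLow_eq_one.2 (hyX y hym)) rfl (by
          intro D _ h1 _
          rw [hye, hze]
          exact ⟨by simpa using fLow_eq_one.1 h1, by simp⟩)
        have ht := sum_all (L := L) (μ := μ) (row := fLow y) (col := fun _ => 1)
          (fun D _ => fLow_le y D) (fun _ _ => by norm_num)
        have hrow := sum_row (L := L) (μ := μ) (row := fLow y) (col := fun _ => 1)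
          (fun _ _ => by norm_num) 0
        have z1 : ∀ a b, b ≠ 1 → blk L μ (fLow y) (fun _ => 1) a b = 0 :=
          fun a b hab => blk_zero fun D _ h => hab h.2.symm
        have z2 : ∀ b, blk L μ (fLow y) (fun _ => 1) 2 b = 0 := fun a => blk_zero fun D _ h => by
          have := h.1
          unfold fLow at this
          split_ifs at this <;> omega
        rw [z1 0 0 (by omega), z1 0 2 (by omega), z1 1 0 (by omega), z1 1 2 (by omega),
          z2 0, z2 1, z2 2, hc, hN'] at ht
        rw [z1 0 0 (by omega), z1 0 2 (by omega)] at hrow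
        have h1 := m1 y hym
        rw [← hrow] at h1
        rw [hy1, hz0]
        simp only [cst]
        exact tp01 (H r ∅) _ (blk L μ (fLow y) (fun _ => 1) 0 1) (by omega) (by omega)
      · rcases Nat.lt_or_ge (zs r pos w).card 2 with hz' | hz'
        · -- (1, 1)
          have hz1 : (zs r pos w).card = 1 := by omega
          obtain ⟨z, hze⟩ := card_eq_one.1 hz1
          have hzm : z ∈ zs r pos w := by rw [hze]; exact mem_singleton_self z
          have hc := hcen (row := fLow y) (col := fUp z) (fLow_eq_one.2 (hyX y hym))
            (fUp_eq_one.2 (hzX z hzm)) (by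
            intro D _ h1 h2
            rw [hye, hze]
            exact ⟨by simpa using fLow_eq_one.1 h1, by simpa using fUp_eq_one.1 h2⟩)
          have ht := sum_all (L := L) (μ := μ) (row := fLow y) (col := fUp z)
            (fun D _ => fLow_le y D) (fun D _ => fUp_le z D)
          have hrow := sum_row (L := L) (μ := μ) (row := fLow y) (col := fUp z)
            (fun D _ => fUp_le z D) 0
          have hcol := sum_col (L := L) (μ := μ) (row := fLow y) (col := fUp z)
            (fun D _ => fLow_le y D) 2
          have z1 : ∀ a, blk L μ (fLow y) (fUp z) a 0 = 0 := fun a => blk_zero fun D _ h => by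
            have := h.2
            unfold fUp at this
            split_ifs at this <;> omega
          have z2 : ∀ b, blk L μ (fLow y) (fUp z) 2 b = 0 := fun a => blk_zero fun D _ h => by
            have := h.1
            unfold fLow at this
            split_ifs at this <;> omega
          rw [z1 0, z1 1, z2 0, z2 1, z2 2, hc, hN'] at ht
          rw [z1 0] at hrow
          rw [z2 2] at hcol
          have h1 := m1 y hym
          have h2 := m2 z hzm
          rw [← hrow] at h1
          rw [← hcol] at h2
          rw [hy1, hz1]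
          simp only [cst]
          exact tp11 (H r ∅) _ _ _ (by omega) h1 h2
        · -- (1, 2)
          have hz3 : (zs r pos w).card = 2 := by omega
          obtain ⟨z₁, z₂, hne, hze⟩ := card_eq_two.1 hz3
          have hzm₁ : z₁ ∈ zs r pos w := by rw [hze]; simp
          have hzm₂ : z₂ ∈ zs r pos w := by rw [hze]; simp
          have key : ∀ z z', z ∈ zs r pos w → z' ∈ zs r pos w → zs r pos w ⊆ {z, z'} → r y z →
              165501 * H r ∅ ≤ 1000000 * (e r X * H r (insert w X)) := by
            intro z z' hzm hzm' hsub hyz
            have hpair := pair_of_rel (r := r) hr pos hp hm w hyz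
            have hc := hcen (row := fPair y z) (col := fUp z')
              (fPair_eq_one.2 ⟨hzX z hzm, hyX y hym⟩) (fUp_eq_one.2 (hzX z' hzm')) (by
              intro D _ h1 h2
              rw [hye]
              refine ⟨by simpa using (fPair_eq_one.1 h1).2, fun a ha => ?_⟩
              have h3 := hsub ha
              simp only [mem_insert, mem_singleton] at h3
              rcases h3 with rfl | rfl
              · exact (fPair_eq_one.1 h1).1
              · exact fUp_eq_one.1 h2)
            have ht := sum_all (L := L) (μ := μ) (row := fPair y z) (col := fUp z')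
              (fun D _ => fPair_le y z D) (fun D _ => fUp_le z' D)
            have hcol := sum_col (L := L) (μ := μ) (row := fPair y z) (col := fUp z')
              (fun D _ => fPair_le y z D) 2
            have hrow0 := sum_row (L := L) (μ := μ) (row := fPair y z) (col := fUp z')
              (fun D _ => fUp_le z' D) 0
            have hrow2 := sum_row (L := L) (μ := μ) (row := fPair y z) (col := fUp z')
              (fun D _ => fUp_le z' D) 2
            have z2 : ∀ a, blk L μ (fPair y z) (fUp z') a 0 = 0 :=
              fun a => blk_zero fun D _ h => by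
                have := h.2
                unfold fUp at this
                split_ifs at this <;> omega
            have hmul := blk_mul hL hμ (hom_pair hpair) (hom_up L z') 1 2 2 1
            rw [z2, z2, z2, hN'] at ht
            rw [z2] at hrow0 hrow2
            have h1 := m3 y hym z
            have h2 := m4 z hzm y
            have h3 := m2 z' hzm'
            rw [← hrow0] at h1
            rw [← hrow2] at h2
            rw [← hcol] at h3
            rw [← hc]
            refine tp32 (H r ∅) (blk L μ (fPair y z) (fUp z') 0 1)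
              (blk L μ (fPair y z) (fUp z') 0 2) _ (blk L μ (fPair y z) (fUp z') 1 2)
              (blk L μ (fPair y z) (fUp z') 2 1) (blk L μ (fPair y z) (fUp z') 2 2)
              (by omega) (by simpa using h1) (by simpa using h2) h3 ?_
            simpa using hmul
          rw [hy1, hz3]
          simp only [cst]
          rcases rel_up hp hm hwid hym hzm₁ hzm₂ hne with h | h
          · exact key z₁ z₂ hzm₁ hzm₂ (by rw [hze]) h
          · exact key z₂ z₁ hzm₂ hzm₁ (by rw [hze, pair_comm]) h
    · have hy3 : (ys r pos w).card = 2 := by omega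
      obtain ⟨y₁, y₂, hney, hye⟩ := card_eq_two.1 hy3
      have hym₁ : y₁ ∈ ys r pos w := by rw [hye]; simp
      have hym₂ : y₂ ∈ ys r pos w := by rw [hye]; simp
      rcases Nat.lt_or_ge (zs r pos w).card 1 with hz | hz
      · -- (2, 0)
        have hz0 : (zs r pos w).card = 0 := by omega
        have hze : zs r pos w = ∅ := card_eq_zero.1 hz0
        have hc := hcen (row := fLow y₁) (col := fLow y₂) (fLow_eq_one.2 (hyX y₁ hym₁))
          (fLow_eq_one.2 (hyX y₂ hym₂)) (by
          intro D _ h1 h2
          rw [hye, hze]
          refine ⟨fun a ha => ?_, by simp⟩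
          simp only [mem_insert, mem_singleton] at ha
          rcases ha with rfl | rfl
          · exact fLow_eq_one.1 h1
          · exact fLow_eq_one.1 h2)
        have ht := sum_all (L := L) (μ := μ) (row := fLow y₁) (col := fLow y₂)
          (fun D _ => fLow_le y₁ D) (fun D _ => fLow_le y₂ D)
        have hcol := sum_col (L := L) (μ := μ) (row := fLow y₁) (col := fLow y₂)
          (fun D _ => fLow_le y₁ D) 0
        have hrow := sum_row (L := L) (μ := μ) (row := fLow y₁) (col := fLow y₂)
          (fun D _ => fLow_le y₂ D) 0
        have z1 : ∀ b, blk L μ (fLow y₁) (fLow y₂) 2 b = 0 := fun b => blk_zero fun D _ h => by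
          have := h.1
          unfold fLow at this
          split_ifs at this <;> omega
        have z2 : ∀ a, blk L μ (fLow y₁) (fLow y₂) a 2 = 0 := fun a => blk_zero fun D _ h => by
          have := h.2
          unfold fLow at this
          split_ifs at this <;> omega
        have hmul := blk_mul hL hμ (hom_low L y₁) (hom_low L y₂) 1 0 0 1
        rw [z1, z1, z1, z2 0, z2 1, hN'] at ht
        rw [z1] at hcol
        rw [z2] at hrow
        have h1 := m1 y₁ hym₁
        have h2 := m1 y₂ hym₂
        rw [← hrow] at h1
        rw [← hcol] at h2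
        rw [hy3, hz0, ← hc]
        simp only [cst]
        refine tp22 (H r ∅) _ (blk L μ (fLow y₁) (fLow y₂) 1 0) (blk L μ (fLow y₁) (fLow y₂) 0 1)
          (blk L μ (fLow y₁) (fLow y₂) 0 0) (by omega) (by omega) (by omega) ?_
        rw [mul_comm (blk L μ (fLow y₁) (fLow y₂) 1 1)]
        simpa using hmul
      · rcases Nat.lt_or_ge (zs r pos w).card 2 with hz' | hz'
        · -- (2, 1)
          have hz1 : (zs r pos w).card = 1 := by omega
          obtain ⟨z, hze⟩ := card_eq_one.1 hz1
          have hzm : z ∈ zs r pos w := by rw [hze]; exact mem_singleton_self z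
          have key : ∀ y y', y ∈ ys r pos w → y' ∈ ys r pos w → ys r pos w ⊆ {y, y'} → r y z →
              165501 * H r ∅ ≤ 1000000 * (e r X * H r (insert w X)) := by
            intro y y' hym hym' hsub hyz
            have hpair := pair_of_rel (r := r) hr pos hp hm w hyz
            have hc := hcen (row := fPair y z) (col := fLow y')
              (fPair_eq_one.2 ⟨hzX z hzm, hyX y hym⟩) (fLow_eq_one.2 (hyX y' hym')) (by
              intro D _ h1 h2
              rw [hze]
              refine ⟨fun a ha => ?_, by simpa using (fPair_eq_one.1 h1).1⟩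
              have h3 := hsub ha
              simp only [mem_insert, mem_singleton] at h3
              rcases h3 with rfl | rfl
              · exact (fPair_eq_one.1 h1).2
              · exact fLow_eq_one.1 h2)
            have ht := sum_all (L := L) (μ := μ) (row := fPair y z) (col := fLow y')
              (fun D _ => fPair_le y z D) (fun D _ => fLow_le y' D)
            have hcol := sum_col (L := L) (μ := μ) (row := fPair y z) (col := fLow y')
              (fun D _ => fPair_le y z D) 0
            have hrow0 := sum_row (L := L) (μ := μ) (row := fPair y z) (col := fLow y')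
              (fun D _ => fLow_le y' D) 0
            have hrow2 := sum_row (L := L) (μ := μ) (row := fPair y z) (col := fLow y')
              (fun D _ => fLow_le y' D) 2
            have z2 : ∀ a, blk L μ (fPair y z) (fLow y') a 2 = 0 :=
              fun a => blk_zero fun D _ h => by
                have := h.2
                unfold fLow at this
                split_ifs at this <;> omega
            have hmul := blk_mul hL hμ (hom_pair hpair) (hom_low L y') 1 0 0 1
            rw [z2, z2, z2, hN'] at ht
            rw [z2] at hrow0 hrow2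
            have h1 := m3 y hym z
            have h2 := m4 z hzm y
            have h3 := m1 y' hym'
            rw [← hrow0] at h1
            rw [← hrow2] at h2
            rw [← hcol] at h3
            rw [← hc]
            refine tp32 (H r ∅) (blk L μ (fPair y z) (fLow y') 2 1)
              (blk L μ (fPair y z) (fLow y') 2 0) _ (blk L μ (fPair y z) (fLow y') 1 0)
              (blk L μ (fPair y z) (fLow y') 0 1) (blk L μ (fPair y z) (fLow y') 0 0)
              (by omega) (by omega) (by omega) (by omega) ?_
            rw [mul_comm (blk L μ (fPair y z) (fLow y') 1 1)]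
            simpa using hmul
          rw [hy3, hz1]
          simp only [cst]
          rcases rel_low hp hm hwid hym₁ hym₂ hney hzm with h | h
          · exact key y₁ y₂ hym₁ hym₂ (by rw [hye]) h
          · exact key y₂ y₁ hym₂ hym₁ (by rw [hye, pair_comm]) h
        · -- (2, 2)
          have hz3 : (zs r pos w).card = 2 := by omega
          obtain ⟨z₁, z₂, hne, hze⟩ := card_eq_two.1 hz3
          have hzm₁ : z₁ ∈ zs r pos w := by rw [hze]; simp
          have hzm₂ : z₂ ∈ zs r pos w := by rw [hze]; simp
          have key : ∀ z z', z ∈ zs r pos w → z' ∈ zs r pos w → zs r pos w ⊆ {z, z'} →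
              r y₁ z → r y₂ z' →
              77954 * H r ∅ ≤ 1000000 * (e r X * H r (insert w X)) := by
            intro z z' hzm hzm' hsub hyz hyz'
            have hpair := pair_of_rel (r := r) hr pos hp hm w hyz
            have hpair' := pair_of_rel (r := r) hr pos hp hm w hyz'
            have hc := hcen (row := fPair y₁ z) (col := fPair y₂ z')
              (fPair_eq_one.2 ⟨hzX z hzm, hyX y₁ hym₁⟩)
              (fPair_eq_one.2 ⟨hzX z' hzm', hyX y₂ hym₂⟩) (by
              intro D _ h1 h2
              rw [hye]
              refine ⟨fun a ha => ?_, fun a ha => ?_⟩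
              · simp only [mem_insert, mem_singleton] at ha
                rcases ha with rfl | rfl
                · exact (fPair_eq_one.1 h1).2
                · exact (fPair_eq_one.1 h2).2
              · have h3 := hsub ha
                simp only [mem_insert, mem_singleton] at h3
                rcases h3 with rfl | rfl
                · exact (fPair_eq_one.1 h1).1
                · exact (fPair_eq_one.1 h2).1)
            have ht := sum_all (L := L) (μ := μ) (row := fPair y₁ z) (col := fPair y₂ z')
              (fun D _ => fPair_le y₁ z D) (fun D _ => fPair_le y₂ z' D)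
            have hcol0 := sum_col (L := L) (μ := μ) (row := fPair y₁ z) (col := fPair y₂ z')
              (fun D _ => fPair_le y₁ z D) 0
            have hcol2 := sum_col (L := L) (μ := μ) (row := fPair y₁ z) (col := fPair y₂ z')
              (fun D _ => fPair_le y₁ z D) 2
            have hrow0 := sum_row (L := L) (μ := μ) (row := fPair y₁ z) (col := fPair y₂ z')
              (fun D _ => fPair_le y₂ z' D) 0
            have hrow2 := sum_row (L := L) (μ := μ) (row := fPair y₁ z) (col := fPair y₂ z')
              (fun D _ => fPair_le y₂ z' D) 2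
            have hmul := blk_mul hL hμ (hom_pair hpair) (hom_pair hpair')
            rw [hN'] at ht
            have h1 := m3 y₁ hym₁ z
            have h2 := m4 z hzm y₁
            have h3 := m3 y₂ hym₂ z'
            have h4 := m4 z' hzm' y₂
            rw [← hrow0] at h1
            rw [← hrow2] at h2
            rw [← hcol0] at h3
            rw [← hcol2] at h4
            rw [← hc]
            refine tp33 (H r ∅) _ _ _ _ _ _ _ _ _ (by omega) h1 h2 h3 h4
              (hmul 0 1 1 0) (hmul 1 2 2 1) (hmul 0 2 1 0) (hmul 0 2 2 1) (hmul 0 1 2 0)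
              (hmul 1 2 2 0)
          rw [hy3, hz3]
          simp only [cst]
          have a1 := rel_low hp hm hwid hym₁ hym₂ hney hzm₁
          have a2 := rel_low hp hm hwid hym₁ hym₂ hney hzm₂
          have b1 := rel_up hp hm hwid hym₁ hzm₁ hzm₂ hne
          have b2 := rel_up hp hm hwid hym₂ hzm₁ hzm₂ hne
          have s1 : zs r pos w ⊆ {z₁, z₂} := by rw [hze]
          have s2 : zs r pos w ⊆ {z₂, z₁} := by rw [hze, pair_comm]
          by_cases c1 : r y₁ z₁
          · by_cases c2 : r y₂ z₂
            · exact key z₁ z₂ hzm₁ hzm₂ s1 c1 c2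
            · have c3 : r y₂ z₁ := b2.resolve_right c2
              have c4 : r y₁ z₂ := a2.resolve_right c2
              exact key z₂ z₁ hzm₂ hzm₁ s2 c4 c3
          · have c3 : r y₁ z₂ := b1.resolve_left c1
            have c4 : r y₂ z₁ := a1.resolve_left c1
            exact key z₂ z₁ hzm₂ hzm₁ s2 c3 c4

end Pool.Agent.Helper99.W3
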