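import Mathlib
import Pool.Agent.W3.World
import Pool.Agent.W3.Major
import Pool.Agent.Helper99.W3.Indec
import Pool.Agent.Helper99.W3.Spine

/-!
# From posets to worlds

A finite poset of width `3` which is not a linear sum and has balance constant below `167/500`
gives a `World`.  So if there is no world, every finite poset of width `3` has balance constant
at least `167/500`.
-/

set_option autoImplicit false

namespace Pool.Agent.Helper99.W3

open Finset Pool.BFT Pool.Agent.W3 Pool.Agent.Helper1.Balance Pool.Agent.Helper8.KS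
open scoped Classical

theorem balance_nonneg' {n : ℕ} (r : Fin n → Fin n → Prop) : 0 ≤ balance r := by
  unfold balance
  refine Real.sSup_nonneg ?_
  rintro t ⟨x, y, -, -, rfl⟩
  have h1 : ∀ x y, 0 ≤ prob r x y := fun x y => by
    unfold prob
    positivity
  exact le_min (h1 _ _) (h1 _ _)

theorem exists_world {n : ℕ} {r : Fin n → Fin n → Prop} (hr : IsPoset r) (hw : HasWidth r 3)
    (hi : Indec r) (hb : balance r < 167 / 500) : Nonempty (World r) := by
  obtain ⟨π, hπ, hmaj⟩ := exists_major' hr (t := 167 / 500) (by norm_num) (by norm_num) hb.le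
  rw [Pool.Agent.BFT.mem_LEs] at hπ
  have hp : Function.Injective (fun x : Fin n => ((π x : Fin n) : ℕ)) := fun x y h =>
    π.injective (Fin.val_injective h)
  have hm : ∀ a b, r a b → (fun x : Fin n => ((π x : Fin n) : ℕ)) a ≤
      (fun x : Fin n => ((π x : Fin n) : ℕ)) b := fun a b h => hπ a b h
  have hmaj' : ∀ a b, (fun x : Fin n => ((π x : Fin n) : ℕ)) a <
      (fun x : Fin n => ((π x : Fin n) : ℕ)) b → prob r b a ≤ (167 : ℝ) / 500 :=
    fun a b h => hmaj a b h
  refine ⟨{ po := po_of hr, wid := hw.2, anti := ?_, indec := ?_, G := H r, e := e r,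
            G_pos := fun D _ => H_pos (po_of hr) D, harm := fun D hD h => H_rec hD h,
            e_empty := e_empty r, e_rec := fun D hD h => e_dn_rec hD h,
            haz := fun D E w _ hE h hw hwD => hazard_mono hE h hwD hw,
            pos := fun x => ((π x : Fin n) : ℕ), pos_inj := hp, pos_mono := hm,
            pos_lt := ?_, maj := ?_, spine := ?_ }⟩
  · obtain ⟨⟨s, h1, h2⟩, -⟩ := hw
    exact ⟨s, h2, h1⟩
  · intro X _ h1 h2
    exact hi X (nonempty_iff_ne_empty.2 h1) h2
  · intro a
    rw [Fintype.card_fin]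
    exact (π a).isLt
  · intro a b h
    have hne : b ≠ a := by
      rintro rfl
      exact lt_irrefl _ h
    have h1 := sum_le_of_prob hr hne (p := 167) (q := 500) (by norm_num)
      (by exact_mod_cast hmaj' a b h)
    convert h1 using 3
    ext D
    simp [Sx]
  · exact fun w => spine hr _ hp hm hw.2 hmaj' w

/-- every finite poset of width `3`, if there is no world -/
theorem balance_of_no_world
    (h : ∀ (n : ℕ) (r : Fin n → Fin n → Prop), World r → False) :
    ∀ (n : ℕ) (r : Fin n → Fin n → Prop), IsPoset r → HasWidth r 3 →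
      (167 : ℝ) / 500 ≤ balance r := by
  refine reduce (w := 3) (Q := fun t => (167 : ℝ) / 500 ≤ t) (fun a b h1 h2 => h2.trans h1) ?_
  intro n r hr hw hi
  by_contra hcon
  obtain ⟨W⟩ := exists_world hr hw hi (not_le.1 hcon)
  exact h n r W

theorem deltaW_three_of_no_world
    (h : ∀ (n : ℕ) (r : Fin n → Fin n → Prop), World r → False) :
    (167 : ℝ) / 500 ≤ deltaW 3 := by
  unfold deltaW
  apply le_csInf
  · refine ⟨_, 3, fun a b => a = b, ⟨fun _ => rfl, fun _ _ _ h1 h2 => h1.trans h2,
      fun _ _ h _ => h⟩, ⟨⟨Finset.univ, by simp, fun a _ b _ h => h⟩, fun s _ =>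
      (Finset.card_le_univ s).trans (by simp)⟩, rfl⟩
  · rintro t ⟨n, r, h2, h3, rfl⟩
    exact balance_of_no_world h n r h2 h3

/-! ### `δ₂ ≤ 1/3` -/

/-- the poset of three elements with one relation -/
def r3 (a b : Fin 3) : Prop := a = b ∨ (a = 0 ∧ b = 1)

instance : DecidableRel r3 := fun a b => inferInstanceAs (Decidable (a = b ∨ (a = 0 ∧ b = 1)))

theorem r3_poset : IsPoset r3 := by
  refine ⟨by decide, by decide, by decide⟩

theorem r3_width : HasWidth r3 2 := by
  refine ⟨⟨{0, 2}, by decide, by unfold IsAnti; decide⟩, ?_⟩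
  unfold IsAnti
  decide

theorem prob_r3 (x y : Fin 3) : prob r3 x y =
    ((univ.filter fun σ : Equiv.Perm (Fin 3) => (∀ a b, r3 a b → σ a ≤ σ b) ∧ σ x < σ y).card : ℝ) /
      3 := by
  unfold prob
  have h1 : Nat.card {σ : Equiv.Perm (Fin 3) // ∀ a b, r3 a b → σ a ≤ σ b} = 3 := by
    rw [Nat.card_eq_fintype_card, Fintype.card_subtype]
    decide
  rw [h1, Nat.card_eq_fintype_card, Fintype.card_subtype]
  norm_num

theorem balance_r3 : balance r3 ≤ 1 / 3 := by
  unfold balance
  refine Real.sSup_le ?_ (by norm_num)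
  rintro t ⟨x, y, h1, h2, rfl⟩
  rw [prob_r3, prob_r3]
  have key : ∀ x y : Fin 3, ¬ r3 x y → ¬ r3 y x →
      (univ.filter fun σ : Equiv.Perm (Fin 3) =>
        (∀ a b, r3 a b → σ a ≤ σ b) ∧ σ x < σ y).card ≤ 1 ∨
      (univ.filter fun σ : Equiv.Perm (Fin 3) =>
        (∀ a b, r3 a b → σ a ≤ σ b) ∧ σ y < σ x).card ≤ 1 := by
    decide
  rcases key x y h1 h2 with h | h
  · refine (min_le_left _ _).trans ?_
    have : ((univ.filter fun σ : Equiv.Perm (Fin 3) =>
        (∀ a b, r3 a b → σ a ≤ σ b) ∧ σ x < σ y).card : ℝ) ≤ 1 := by exact_mod_cast h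
    linarith
  · refine (min_le_right _ _).trans ?_
    have : ((univ.filter fun σ : Equiv.Perm (Fin 3) =>
        (∀ a b, r3 a b → σ a ≤ σ b) ∧ σ y < σ x).card : ℝ) ≤ 1 := by exact_mod_cast h
    linarith

theorem deltaW_two : deltaW 2 ≤ 1 / 3 := by
  refine le_trans ?_ balance_r3
  unfold deltaW
  apply csInf_le
  · refine ⟨0, ?_⟩
    rintro d ⟨n, r, _, _, rfl⟩
    exact balance_nonneg' r
  · exact ⟨3, r3, r3_poset, r3_width, rfl⟩

/-- the final statement, if there is no world -/
theorem final_of_no_world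
    (h : ∀ (n : ℕ) (r : Fin n → Fin n → Prop), World r → False) :
    (∀ (n : ℕ) (r : Fin n → Fin n → Prop), IsPoset r → HasWidth r 3 →
      (167 : ℝ) / 500 ≤ balance r) ∧ (167 : ℝ) / 500 ≤ deltaW 3 ∧ deltaW 2 < deltaW 3 := by
  have h1 := deltaW_three_of_no_world h
  refine ⟨balance_of_no_world h, h1, ?_⟩
  have h2 := deltaW_two
  linarith

end Pool.Agent.Helper99.W3
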