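import Mathlib
import Pool.Agent.Helper99.W3.Indec

/-!
# Reduction to indecomposable posets outside a class closed under linear sums

`reduceC`: let `C` be a class of posets closed under linear sums and `W` a hereditary property.
A lower bound for the balance constants of the posets with property `W` which are outside `C` and
not linear sums holds for all posets with property `W` outside `C`.

`InD`: the linear sums of points and of copies of the three-element poset with one relation.
-/

set_option autoImplicit false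

namespace Pool.Agent.Helper99.W3

open Finset Pool.Agent.Helper1.Balance Pool.Agent.Helper8.KS Pool.BFT
open scoped Classical

theorem reduceC {C W : ∀ n : ℕ, (Fin n → Fin n → Prop) → Prop} {Q : ℝ → Prop}
    (hQ : ∀ a b, a ≤ b → Q a → Q b)
    (hC : ∀ (n : ℕ) (r : Fin n → Fin n → Prop) (s : Finset (Fin n)), IsPoset r → s.Nonempty →
      s ≠ univ → (∀ a ∈ s, ∀ b, b ∉ s → r a b) → C _ (sub r s) → C _ (sub r sᶜ) → C n r)
    (hW : ∀ (n : ℕ) (r : Fin n → Fin n → Prop) (s : Finset (Fin n)), W n r → W _ (sub r s))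
    (h : ∀ (n : ℕ) (r : Fin n → Fin n → Prop), IsPoset r → W n r → Indec r → ¬ C n r →
      Q (balance r)) :
    ∀ (n : ℕ) (r : Fin n → Fin n → Prop), IsPoset r → W n r → ¬ C n r → Q (balance r) := by
  intro n
  induction n using Nat.strong_induction_on with
  | _ n ih =>
    intro r hr hw hc
    by_cases hi : Indec r
    · exact h n r hr hw hi hc
    · unfold Indec at hi
      push Not at hi
      obtain ⟨s, hs, hsu, hlt⟩ := hi
      have hcard : ∀ A : Finset (Fin n), A ≠ univ → A.card < n := by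
        intro A hA
        by_contra hcon
        apply hA
        refine Finset.eq_univ_of_card A ?_
        rw [Fintype.card_fin]
        have := Finset.card_le_univ A
        rw [Fintype.card_fin] at this
        omega
      by_cases h1 : C _ (sub r s)
      · by_cases h2 : C _ (sub r sᶜ)
        · exact absurd (hC n r s hr hs hsu hlt h1 h2) hc
        · have hup : ∀ a ∈ sᶜ, ∀ b, b ∉ sᶜ → r b a := by
            intro a ha b hb
            rw [Finset.mem_compl] at ha hb
            rw [not_not] at hb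
            exact hlt b hb a ha
          refine hQ _ _ (balance_sub_le hr (prob_upper hr hup)) ?_
          refine ih _ (hcard sᶜ fun hh => ?_) _ (sub_poset hr sᶜ) (hW n r sᶜ hw) h2
          obtain ⟨x, hx⟩ := hs
          have h1 : x ∈ sᶜ := by
            rw [hh]
            exact Finset.mem_univ _
          exact Finset.mem_compl.1 h1 hx
      · refine hQ _ _ (balance_sub_le hr (prob_lower hr fun a ha b hb => hlt a ha b hb)) ?_
        exact ih _ (hcard s hsu) _ (sub_poset hr s) (hW n r s hw) h1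

/-- the width is hereditary -/
theorem wid_sub {w n : ℕ} {r : Fin n → Fin n → Prop}
    (h : ∀ s : Finset (Fin n), IsAnti r s → s.card ≤ w) (A : Finset (Fin n)) :
    ∀ s : Finset (Fin A.card), IsAnti (sub r A) s → s.card ≤ w := by
  intro u hu
  have h1 := h (u.map (A.orderEmbOfFin rfl).toEmbedding) (by
    intro a ha b hb hab
    rw [Finset.mem_map] at ha hb
    obtain ⟨i, hi, rfl⟩ := ha
    obtain ⟨j, hj, rfl⟩ := hb
    exact hu i hi j hj fun hh => hab (by rw [hh]))
  rwa [Finset.card_map] at h1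

/-- `r` is a linear sum of points and of copies of the three-element poset with exactly one
relation: `b x` is the number of the summand of `x` -/
def InD {n : ℕ} (r : Fin n → Fin n → Prop) : Prop :=
  ∃ (k : ℕ) (b : Fin n → Fin k), (∀ x y, b x < b y → r x y) ∧
    ∀ i, (∃ x, ∀ u, b u = i ↔ u = x) ∨
      ∃ x y z, x ≠ y ∧ x ≠ z ∧ y ≠ z ∧ (∀ u, b u = i ↔ u = x ∨ u = y ∨ u = z) ∧
        r x y ∧ ¬ r x z ∧ ¬ r z x ∧ ¬ r y z ∧ ¬ r z y

theorem mem_range_emb {n : ℕ} {s : Finset (Fin n)} {a : Fin n} (h : a ∈ s) :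
    ∃ i, s.orderEmbOfFin rfl i = a := by
  have h1 : a ∈ Set.range (s.orderEmbOfFin rfl) := by
    rw [Finset.range_orderEmbOfFin]
    exact h
  exact h1

/-- **`InD` is closed under linear sums** -/
theorem inD_sum (n : ℕ) (r : Fin n → Fin n → Prop) (s : Finset (Fin n))
    (hlt : ∀ a ∈ s, ∀ b, b ∉ s → r a b) (h1 : InD (sub r s)) (h2 : InD (sub r sᶜ)) : InD r := by
  obtain ⟨k₁, b₁, hb₁, hi₁⟩ := h1
  obtain ⟨k₂, b₂, hb₂, hi₂⟩ := h2
  have hex : ∀ u : Fin n, ∃ m : Fin (k₁ + k₂),
      (∀ i, s.orderEmbOfFin rfl i = u → m = Fin.castAdd k₂ (b₁ i)) ∧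
      (∀ i, sᶜ.orderEmbOfFin rfl i = u → m = Fin.natAdd k₁ (b₂ i)) := by
    intro u
    by_cases hu : u ∈ s
    · obtain ⟨i, rfl⟩ := mem_range_emb hu
      refine ⟨Fin.castAdd k₂ (b₁ i), fun j hj => ?_, fun j hj => ?_⟩
      · rw [(s.orderEmbOfFin rfl).injective hj]
      · have h3 := sᶜ.orderEmbOfFin_mem rfl j
        rw [hj, Finset.mem_compl] at h3
        exact absurd hu h3
    · obtain ⟨i, rfl⟩ := mem_range_emb (Finset.mem_compl.2 hu)
      refine ⟨Fin.natAdd k₁ (b₂ i), fun j hj => ?_, fun j hj => ?_⟩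
      · have h3 := s.orderEmbOfFin_mem rfl j
        rw [hj] at h3
        exact absurd h3 hu
      · rw [(sᶜ.orderEmbOfFin rfl).injective hj]
  choose b hb hb' using hex
  have e1 : ∀ i, b (s.orderEmbOfFin rfl i) = Fin.castAdd k₂ (b₁ i) := fun i => hb _ i rfl
  have e2 : ∀ i, b (sᶜ.orderEmbOfFin rfl i) = Fin.natAdd k₁ (b₂ i) := fun i => hb' _ i rfl
  refine ⟨k₁ + k₂, b, ?_, ?_⟩
  · intro x y hxy
    by_cases hx : x ∈ s
    · by_cases hy : y ∈ s
      · obtain ⟨i, rfl⟩ := mem_range_emb hx
        obtain ⟨j, rfl⟩ := mem_range_emb hy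
        rw [e1, e1] at hxy
        refine hb₁ i j ?_
        rw [Fin.lt_def] at hxy ⊢
        simpa only [Fin.val_castAdd] using hxy
      · exact hlt x hx y hy
    · obtain ⟨i, rfl⟩ := mem_range_emb (Finset.mem_compl.2 hx)
      by_cases hy : y ∈ s
      · obtain ⟨j, rfl⟩ := mem_range_emb hy
        rw [e2, e1, Fin.lt_def] at hxy
        simp only [Fin.val_natAdd, Fin.val_castAdd] at hxy
        have := (b₁ j).isLt
        omega
      · obtain ⟨j, rfl⟩ := mem_range_emb (Finset.mem_compl.2 hy)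
        rw [e2, e2] at hxy
        refine hb₂ i j ?_
        rw [Fin.lt_def] at hxy ⊢
        simp only [Fin.val_natAdd] at hxy
        omega
  · intro m
    -- transport of a block along an embedding
    have key : ∀ (A : Finset (Fin n)) (k : ℕ) (c : Fin A.card → Fin k) (m' : Fin k),
        (∀ u : Fin n, b u = m ↔ ∃ i, A.orderEmbOfFin rfl i = u ∧ c i = m') →
        ((∃ x, ∀ u, c u = m' ↔ u = x) ∨
          ∃ x y z, x ≠ y ∧ x ≠ z ∧ y ≠ z ∧ (∀ u, c u = m' ↔ u = x ∨ u = y ∨ u = z) ∧
            sub r A x y ∧ ¬ sub r A x z ∧ ¬ sub r A z x ∧ ¬ sub r A y z ∧ ¬ sub r A z y) →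
        (∃ x, ∀ u, b u = m ↔ u = x) ∨
          ∃ x y z, x ≠ y ∧ x ≠ z ∧ y ≠ z ∧ (∀ u, b u = m ↔ u = x ∨ u = y ∨ u = z) ∧
            r x y ∧ ¬ r x z ∧ ¬ r z x ∧ ¬ r y z ∧ ¬ r z y := by
      intro A k c m' hm h
      have hne : ∀ {i j : Fin A.card}, i ≠ j → A.orderEmbOfFin rfl i ≠ A.orderEmbOfFin rfl j :=
        fun hij h' => hij ((A.orderEmbOfFin rfl).injective h')
      rcases h with ⟨x, hx⟩ | ⟨x, y, z, hxy, hxz, hyz, hu, g1, g2, g3, g4, g5⟩
      · refine Or.inl ⟨A.orderEmbOfFin rfl x, fun u => ?_⟩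
        rw [hm]
        constructor
        · rintro ⟨i, rfl, hi⟩
          rw [(hx i).1 hi]
        · rintro rfl
          exact ⟨x, rfl, (hx x).2 rfl⟩
      · refine Or.inr ⟨A.orderEmbOfFin rfl x, A.orderEmbOfFin rfl y, A.orderEmbOfFin rfl z,
          hne hxy, hne hxz, hne hyz, fun u => ?_, g1, g2, g3, g4, g5⟩
        rw [hm]
        constructor
        · rintro ⟨i, rfl, hi⟩
          rcases (hu i).1 hi with rfl | rfl | rfl
          · exact Or.inl rfl
          · exact Or.inr (Or.inl rfl)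
          · exact Or.inr (Or.inr rfl)
        · rintro (rfl | rfl | rfl)
          · exact ⟨x, rfl, (hu x).2 (Or.inl rfl)⟩
          · exact ⟨y, rfl, (hu y).2 (Or.inr (Or.inl rfl))⟩
          · exact ⟨z, rfl, (hu z).2 (Or.inr (Or.inr rfl))⟩
    have hcase : (∃ m', m = Fin.castAdd k₂ m') ∨ ∃ m', m = Fin.natAdd k₁ m' := by
      rcases Nat.lt_or_ge (m : ℕ) k₁ with h | h
      · exact Or.inl ⟨⟨m, h⟩, by ext; simp⟩
      · refine Or.inr ⟨⟨(m : ℕ) - k₁, by have := m.isLt; omega⟩, ?_⟩
        ext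
        simp only [Fin.val_natAdd]
        omega
    rcases hcase with ⟨m', hm'⟩ | ⟨m', hm'⟩
    · subst hm'
      refine key s k₁ b₁ m' (fun u => ?_) (hi₁ m')
      constructor
      · intro hu
        by_cases hus : u ∈ s
        · obtain ⟨i, rfl⟩ := mem_range_emb hus
          rw [e1] at hu
          exact ⟨i, rfl, by simpa using hu⟩
        · obtain ⟨i, rfl⟩ := mem_range_emb (Finset.mem_compl.2 hus)
          rw [e2, Fin.ext_iff] at hu
          simp only [Fin.val_natAdd, Fin.val_castAdd] at hu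
          have := m'.isLt
          omega
      · rintro ⟨i, rfl, hi⟩
        rw [e1, hi]
    · subst hm'
      refine key sᶜ k₂ b₂ m' (fun u => ?_) (hi₂ m')
      constructor
      · intro hu
        by_cases hus : u ∈ s
        · obtain ⟨i, rfl⟩ := mem_range_emb hus
          rw [e1, Fin.ext_iff] at hu
          simp only [Fin.val_natAdd, Fin.val_castAdd] at hu
          have := (b₁ i).isLt
          omega
        · obtain ⟨i, rfl⟩ := mem_range_emb (Finset.mem_compl.2 hus)
          rw [e2] at hu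
          exact ⟨i, rfl, by simpa using hu⟩
      · rintro ⟨i, rfl, hi⟩
        rw [e2, hi]

/-- **reduction for the class `InD`**, width at most `w` -/
theorem reduceD {w : ℕ} {Q : ℝ → Prop} (hQ : ∀ a b, a ≤ b → Q a → Q b)
    (h : ∀ (n : ℕ) (r : Fin n → Fin n → Prop), IsPoset r →
      (∀ s : Finset (Fin n), IsAnti r s → s.card ≤ w) → Indec r → ¬ InD r → Q (balance r)) :
    ∀ (n : ℕ) (r : Fin n → Fin n → Prop), IsPoset r →
      (∀ s : Finset (Fin n), IsAnti r s → s.card ≤ w) → ¬ InD r → Q (balance r) :=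
  reduceC (C := fun _ r => InD r) (W := fun _ r => ∀ s, IsAnti r s → s.card ≤ w) hQ
    (fun n r s _ _ _ hlt h1 h2 => inD_sum n r s hlt h1 h2) (fun _ _ s hw => wid_sub hw s) h

end Pool.Agent.Helper99.W3
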